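import Mathlib
import Pool.Agent.MP_af0b0b_lc.Defs

-- part MP_af0b0b_lc.Oracle
section

/-! Closure properties of oracle computability. -/

namespace Pool.Agent.MP_af0b0b_lc

open Encodable Part

variable {α β γ σ : Type*} [Primcodable α] [Primcodable β] [Primcodable γ] [Primcodable σ]
variable {O : Set (ℕ →. ℕ)}

theorem nri_some : Nat.RecursiveIn O Part.some := Nat.Partrec.some.recursiveIn

theorem nri_prec' {f g h} (hf : Nat.RecursiveIn O f) (hg : Nat.RecursiveIn O g)
    (hh : Nat.RecursiveIn O h) :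
    Nat.RecursiveIn O fun a => (f a).bind fun n => n.rec (g a)
      fun y IH => do {let i ← IH; h (Nat.pair a (Nat.pair y i))} :=
  ((Nat.RecursiveIn.prec hg hh).comp (Nat.RecursiveIn.pair nri_some hf)).of_eq fun a =>
    Part.ext fun s => by simp [Seq.seq]

set_option backward.isDefEq.respectTransparency false in
theorem ri_bind {f : α →. β} {g : α × β →. σ} (hf : RecursiveIn O f) (hg : RecursiveIn O g) :
    RecursiveIn O fun a => (f a).bind (fun b => g (a, b)) :=
  (Nat.RecursiveIn.comp hg (Nat.RecursiveIn.pair nri_some hf)).of_eq fun n => by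
    rcases e : decode (α := α) n <;> simp [Seq.seq, e, encodek]

theorem ri_comp {f : β →. σ} {g : α → β} (hf : RecursiveIn O f) (hg : ComputableIn O g) :
    RecursiveIn O fun a => f (g a) :=
  (Nat.RecursiveIn.comp hf hg).of_eq fun n => by
    simp only [map_some, bind_eq_bind]
    rcases e : decode (α := α) n with - | a <;> simp [encodek]

theorem ri_map {f : α →. β} {g : α × β → σ} (hf : RecursiveIn O f) (hg : ComputableIn O g) :
    RecursiveIn O fun a => (f a).map (fun b => g (a, b)) := by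
  simpa [bind_some_eq_map] using ri_bind (g := fun x => Part.some (g x)) hf hg

theorem ri_nat_rec {f : α → ℕ} {g : α →. σ} {h : α × ℕ × σ →. σ} (hf : ComputableIn O f)
    (hg : RecursiveIn O g) (hh : RecursiveIn O h) :
    RecursiveIn O fun a => (f a).rec (g a) fun y IH => IH.bind fun i => h (a, y, i) :=
  (nri_prec' hf hg hh).of_eq fun n => by
    rcases e : decode (α := α) n with - | a
    · simp
    · simp only [coe_some, bind_some, map_some, encode_nat]
      induction f a <;> simp_all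

set_option backward.isDefEq.respectTransparency false in
theorem ri_rfind {p : α × ℕ →. Bool} (hp : RecursiveIn O p) :
    RecursiveIn O fun a => Nat.rfind (fun n => p (a, n)) :=
  (Nat.RecursiveIn.rfind <| ri_map hp
    (((Primrec.dom_bool fun b => cond b 0 1).comp Primrec.snd).computableIn)).of_eq
    fun n => by
    rcases e : decode (α := α) n <;> simp [e, Nat.rfind_zero_none, map_map, map_id']

attribute [fun_prop] ComputableIn

@[fun_prop] theorem ci_id : ComputableIn O (fun x : α => x) := ComputableIn.id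

@[fun_prop] theorem ci_const (s : σ) : ComputableIn O (fun _ : α => s) := ComputableIn.const s

@[fun_prop] theorem ci_comp {f : β → σ} {g : α → β} (hf : ComputableIn O f)
    (hg : ComputableIn O g) : ComputableIn O fun a => f (g a) :=
  ri_comp (f := fun b => Part.some (f b)) hf hg

theorem ci_of_eq {f g : α → σ} (hf : ComputableIn O f) (H : ∀ n, f n = g n) : ComputableIn O g :=
  (funext H : f = g) ▸ hf

@[fun_prop] theorem ci_pair {f : α → β} {g : α → γ} (hf : ComputableIn O f)
    (hg : ComputableIn O g) : ComputableIn O fun a => (f a, g a) :=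
  (Nat.RecursiveIn.pair hf hg).of_eq fun n => by cases decode (α := α) n <;> simp [Seq.seq]

@[fun_prop] theorem ci_fst {f : α → β × γ} (hf : ComputableIn O f) :
    ComputableIn O fun a => (f a).1 := ci_comp ComputableIn.fst hf

@[fun_prop] theorem ci_snd {f : α → β × γ} (hf : ComputableIn O f) :
    ComputableIn O fun a => (f a).2 := ci_comp ComputableIn.snd hf

theorem ci_prim {f : β → σ} {g : α → β} (hf : Primrec f) (hg : ComputableIn O g) :
    ComputableIn O fun a => f (g a) := ci_comp hf.computableIn hg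

theorem ci_prim₂ {f : β → γ → σ} {g : α → β} {h : α → γ} (hf : Primrec₂ f)
    (hg : ComputableIn O g) (hh : ComputableIn O h) : ComputableIn O fun a => f (g a) (h a) :=
  ci_comp (f := fun p : β × γ => f p.1 p.2) (Primrec.computableIn hf) (ci_pair hg hh)

theorem ci_nat_rec {f : α → ℕ} {g : α → σ} {h : α × ℕ × σ → σ} (hf : ComputableIn O f)
    (hg : ComputableIn O g) (hh : ComputableIn O h) :
    ComputableIn O fun a => Nat.rec (motive := fun _ => σ) (g a) (fun y IH => h (a, y, IH)) (f a) :=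
  (ri_nat_rec hf hg hh).of_eq fun a => by
    beta_reduce
    induction f a <;> simp [*]

@[fun_prop] theorem ci_nat_rec' {f : α → ℕ} {g : α → σ} {h : α → ℕ → σ → σ} (hf : ComputableIn O f)
    (hg : ComputableIn O g) (hh : ComputableIn O fun p : α × ℕ × σ => h p.1 p.2.1 p.2.2) :
    ComputableIn O fun a => Nat.rec (motive := fun _ => σ) (g a) (h a) (f a) :=
  ci_nat_rec hf hg hh

theorem ci_find {p : α → ℕ → Bool} (hp : ComputableIn O fun x : α × ℕ => p x.1 x.2)
    (H : ∀ a, ∃ n, p a n = true) : ComputableIn O fun a => Nat.find (H a) := by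
  refine RecursiveIn.of_eq_tot (ri_rfind (p := fun x => Part.some (p x.1 x.2)) hp) fun a => ?_
  refine Nat.mem_rfind.2 ⟨by simpa using Nat.find_spec (H a), fun {m} hm => ?_⟩
  simpa using Nat.find_min (H a) hm

@[fun_prop] theorem ci_add {f g : α → ℕ} (hf : ComputableIn O f) (hg : ComputableIn O g) :
    ComputableIn O fun a => f a + g a := ci_prim₂ Primrec.nat_add hf hg

@[fun_prop] theorem ci_sub {f g : α → ℕ} (hf : ComputableIn O f) (hg : ComputableIn O g) :
    ComputableIn O fun a => f a - g a := ci_prim₂ Primrec.nat_sub hf hg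

@[fun_prop] theorem ci_mul {f g : α → ℕ} (hf : ComputableIn O f) (hg : ComputableIn O g) :
    ComputableIn O fun a => f a * g a := ci_prim₂ Primrec.nat_mul hf hg

@[fun_prop] theorem ci_pow {f g : α → ℕ} (hf : ComputableIn O f) (hg : ComputableIn O g) :
    ComputableIn O fun a => f a ^ g a :=
  ci_prim₂ (f := fun a b : ℕ => a ^ b) (Primrec₂.unpaired'.1 Nat.Primrec.pow) hf hg

@[fun_prop] theorem ci_natPair {f g : α → ℕ} (hf : ComputableIn O f) (hg : ComputableIn O g) :
    ComputableIn O fun a => Nat.pair (f a) (g a) := ci_prim₂ Primrec₂.natPair hf hg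

@[fun_prop] theorem ci_unpair {f : α → ℕ} (hf : ComputableIn O f) :
    ComputableIn O fun a => Nat.unpair (f a) := ci_prim Primrec.unpair hf

@[fun_prop] theorem ci_encode {f : α → β} (hf : ComputableIn O f) :
    ComputableIn O fun a => encode (f a) := ci_prim Primrec.encode hf

@[fun_prop] theorem ci_decode {f : α → ℕ} (hf : ComputableIn O f) :
    ComputableIn O fun a => (decode (f a) : Option β) := ci_prim Primrec.decode hf

@[fun_prop] theorem ci_some {f : α → β} (hf : ComputableIn O f) :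
    ComputableIn O fun a => Option.some (f a) := ci_prim Primrec.option_some hf

@[fun_prop] theorem ci_getD {f : α → Option β} {g : α → β} (hf : ComputableIn O f)
    (hg : ComputableIn O g) : ComputableIn O fun a => (f a).getD (g a) :=
  ci_prim₂ Primrec.option_getD hf hg

@[fun_prop] theorem ci_isSome {f : α → Option β} (hf : ComputableIn O f) :
    ComputableIn O fun a => (f a).isSome := ci_prim Primrec.option_isSome hf

@[fun_prop] theorem ci_and {f g : α → Bool} (hf : ComputableIn O f) (hg : ComputableIn O g) :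
    ComputableIn O fun a => (f a && g a) := ci_prim₂ Primrec.and hf hg

@[fun_prop] theorem ci_or {f g : α → Bool} (hf : ComputableIn O f) (hg : ComputableIn O g) :
    ComputableIn O fun a => (f a || g a) := ci_prim₂ Primrec.or hf hg

@[fun_prop] theorem ci_not {f : α → Bool} (hf : ComputableIn O f) :
    ComputableIn O fun a => (!f a) := ci_prim Primrec.not hf

@[fun_prop] theorem ci_cond {c : α → Bool} {f g : α → σ} (hc : ComputableIn O c)
    (hf : ComputableIn O f) (hg : ComputableIn O g) :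
    ComputableIn O fun a => cond (c a) (f a) (g a) :=
  ci_comp (f := fun p : Bool × σ × σ => cond p.1 p.2.1 p.2.2)
    (Primrec.cond Primrec.fst (Primrec.fst.comp Primrec.snd)
      (Primrec.snd.comp Primrec.snd)).computableIn (ci_pair hc (ci_pair hf hg))

/-- Boolean equality test. -/
def beq' [DecidableEq β] (x y : β) : Bool := decide (x = y)

omit [Primcodable β] in
@[simp] theorem beq'_iff [DecidableEq β] (x y : β) : beq' x y = true ↔ x = y := by simp [beq']

@[fun_prop] theorem ci_beq' [DecidableEq β] {f g : α → β} (hf : ComputableIn O f)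
    (hg : ComputableIn O g) : ComputableIn O fun a => beq' (f a) (g a) :=
  ci_prim₂ (f := fun x y => decide (x = y)) Primrec.eq.decide hf hg

@[fun_prop] theorem ci_ble {f g : α → ℕ} (hf : ComputableIn O f) (hg : ComputableIn O g) :
    ComputableIn O fun a => Nat.ble (f a) (g a) :=
  ci_of_eq (ci_prim₂ (f := fun x y : ℕ => decide (x ≤ y)) Primrec.nat_le.decide hf hg)
    fun a => by rw [Bool.eq_iff_iff]; simp

@[fun_prop] theorem ci_range {f : α → ℕ} (hf : ComputableIn O f) :
    ComputableIn O fun a => List.range (f a) := ci_prim Primrec.list_range hf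

@[fun_prop] theorem ci_length {f : α → List β} (hf : ComputableIn O f) :
    ComputableIn O fun a => (f a).length := ci_prim Primrec.list_length hf

@[fun_prop] theorem ci_take {f : α → ℕ} {g : α → List β} (hf : ComputableIn O f)
    (hg : ComputableIn O g) : ComputableIn O fun a => (g a).take (f a) :=
  ci_prim₂ Primrec.list_take hf hg

@[fun_prop] theorem ci_append {f g : α → List β} (hf : ComputableIn O f)
    (hg : ComputableIn O g) : ComputableIn O fun a => f a ++ g a :=
  ci_prim₂ Primrec.list_append hf hg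

@[fun_prop] theorem ci_cons {f : α → β} {g : α → List β} (hf : ComputableIn O f)
    (hg : ComputableIn O g) : ComputableIn O fun a => f a :: g a :=
  ci_prim₂ Primrec.list_cons hf hg

@[fun_prop] theorem ci_getElem? {f : α → List β} {g : α → ℕ} (hf : ComputableIn O f)
    (hg : ComputableIn O g) : ComputableIn O fun a => (f a)[g a]? :=
  ci_prim₂ Primrec.list_getElem? hf hg

@[fun_prop] theorem ci_flatten {f : α → List (List β)} (hf : ComputableIn O f) :
    ComputableIn O fun a => (f a).flatten := ci_prim Primrec.list_flatten hf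

theorem ci_range_map {f : α → ℕ} {g : α → ℕ → σ} (hf : ComputableIn O f)
    (hg : ComputableIn O fun p : α × ℕ => g p.1 p.2) :
    ComputableIn O fun a => (List.range (f a)).map (g a) := by
  have := ci_nat_rec' (O := O) (f := f) (g := fun _ => ([] : List σ))
    (h := fun a y IH => IH ++ [g a y]) hf (by fun_prop) (by fun_prop)
  refine ci_of_eq this fun a => ?_
  induction f a with
  | zero => rfl
  | succ n ih => simp [List.range_succ, ih]

theorem ci_option_map {f : α → Option β} {g : α → β → σ} (hf : ComputableIn O f)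
    (hg : ComputableIn O fun p : α × β => g p.1 p.2) :
    ComputableIn O fun a => (f a).map (g a) := by
  have h1 : RecursiveIn O fun a => ((f a).casesOn (Part.some Option.none)
      (fun b => Part.some (Option.some (g a b))) : Part (Option σ)) := by
    have h2 : RecursiveIn O fun p : α × ℕ × Option σ =>
        (Part.ofOption (f p.1)).bind fun b => Part.some (Option.some (g p.1 b)) := by
      refine ri_bind (g := fun q : (α × ℕ × Option σ) × β => Part.some (Option.some (g q.1.1 q.2)))
        ?_ ?_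
      · exact ri_comp (f := fun o : Option β => Part.ofOption o)
          (Computable.ofOption Computable.id).recursiveIn (by fun_prop)
      · change ComputableIn O _
        fun_prop
    have h3 := ri_nat_rec (O := O) (f := fun a => cond (f a).isSome 1 0)
      (g := fun _ => Part.some (Option.none : Option σ)) (by fun_prop) (ci_const _) h2
    refine h3.of_eq fun a => ?_
    cases h : f a <;> simp [h]
  refine h1.of_eq fun a => ?_
  beta_reduce
  cases f a <;> rfl

@[fun_prop] theorem ci_option_bind {f : α → Option β} {g : α → β → Option σ}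
    (hf : ComputableIn O f) (hg : ComputableIn O fun p : α × β => g p.1 p.2) :
    ComputableIn O fun a => (f a).bind (g a) := by
  have := ci_getD (ci_option_map hf hg) (ci_const (O := O) Option.none)
  refine ci_of_eq this fun a => ?_
  cases f a <;> rfl

attribute [fun_prop] ci_option_map

@[fun_prop] theorem ci_map {f : α → List β} {g : α → β → σ} (hf : ComputableIn O f)
    (hg : ComputableIn O fun p : α × β => g p.1 p.2) :
    ComputableIn O fun a => (f a).map (g a) := by
  have h1 : ComputableIn O fun a =>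
      (List.range (f a).length).map (fun i => ((f a)[i]?).map (g a)) :=
    ci_range_map (by fun_prop) (by fun_prop)
  have h2 := ci_prim (Primrec.listFilterMap (f := fun l : List (Option σ) => l)
    (g := fun _ o => o) Primrec.id Primrec₂.right) h1
  refine ci_of_eq h2 fun a => ?_
  have : (List.range (f a).length).map (fun i => ((f a)[i]?).map (g a)) =
      ((f a).map (g a)).map Option.some := by
    apply List.ext_getElem
    · simp
    · intro i h1 h2
      simp at h1
      simp [h1]
  rw [this, List.filterMap_map]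
  simp

theorem primrec_countTrue : Primrec fun l : List Bool => l.count true := by
  refine (Primrec.list_foldr (f := fun l : List Bool => l) (g := fun _ => 0)
    (h := fun _ p => cond p.1 (p.2 + 1) p.2) Primrec.id (Primrec.const 0)
    (Primrec.cond (Primrec.fst.comp Primrec.snd)
      (Primrec.succ.comp (Primrec.snd.comp Primrec.snd)) (Primrec.snd.comp Primrec.snd)).to₂).of_eq
    fun l => ?_
  induction l with
  | nil => rfl
  | cons b l ih => cases b <;> simp [ih]

@[fun_prop] theorem ci_countP {f : α → List β} {g : α → β → Bool} (hf : ComputableIn O f)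
    (hg : ComputableIn O fun p : α × β => g p.1 p.2) :
    ComputableIn O fun a => (f a).countP (g a) := by
  refine ci_of_eq (ci_prim primrec_countTrue (ci_map hf hg)) fun a => ?_
  simp [List.count, List.countP_map, Function.comp_def]

@[fun_prop] theorem ci_all {f : α → List β} {g : α → β → Bool} (hf : ComputableIn O f)
    (hg : ComputableIn O fun p : α × β => g p.1 p.2) :
    ComputableIn O fun a => (f a).all (g a) := by
  have : ComputableIn O fun a => beq' ((f a).countP (g a)) (f a).length := by fun_prop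
  refine ci_of_eq this fun a => ?_
  rw [Bool.eq_iff_iff]
  simp [List.countP_eq_length]

/-- Choice of a computable witness. -/
theorem ci_choose [Inhabited β] {p : α → β → Bool}
    (hp : ComputableIn O fun x : α × β => p x.1 x.2) (H : ∀ a, ∃ b, p a b = true) :
    ∃ f : α → β, ComputableIn O f ∧ ∀ a, p a (f a) = true := by
  have H' : ∀ a, ∃ n, p a ((decode n : Option β).getD default) = true := by
    intro a
    obtain ⟨b, hb⟩ := H a
    exact ⟨encode b, by simpa using hb⟩
  have h1 := ci_find (O := O) (p := fun a n => p a ((decode n : Option β).getD default))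
    (by fun_prop) H'
  exact ⟨fun a => (decode (Nat.find (H' a)) : Option β).getD default, by fun_prop,
    fun a => Nat.find_spec (H' a)⟩

end Pool.Agent.MP_af0b0b_lc

end

-- part MP_af0b0b_lc.Normal
section

/-! The use principle: normal form of oracle computations. -/

namespace Pool.Agent.MP_af0b0b_lc

open Encodable

/-- A binary sequence as an oracle. -/
def orc (X : ℕ → Bool) : ℕ →. ℕ := fun n => Part.some (cond (X n) 1 0)

/-- Initial segment. -/
def pre (X : ℕ → Bool) (s : ℕ) : List Bool := (List.range s).map X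

@[simp] theorem pre_length (X : ℕ → Bool) (s : ℕ) : (pre X s).length = s := by simp [pre]

theorem pre_take (X : ℕ → Bool) {s t : ℕ} (h : s ≤ t) : (pre X t).take s = pre X s := by
  simp [pre, ← List.map_take, List.take_range, h]

theorem pre_isPrefix (X : ℕ → Bool) {s t : ℕ} (h : s ≤ t) : pre X s <+: pre X t := by
  rw [← pre_take X h]; exact List.take_prefix _ _

theorem pre_getElem? (X : ℕ → Bool) {s i : ℕ} (h : i < s) : (pre X s)[i]? = some (X i) := by
  simp [pre, h]

theorem pre_succ (X : ℕ → Bool) (s : ℕ) : pre X (s + 1) = pre X s ++ [X s] := by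
  simp [pre, List.range_succ]

/-- Monotone functionals. -/
def Mono {σ : Type*} (Φ : List Bool → ℕ → Option σ) : Prop :=
  ∀ l l' n m, l <+: l' → Φ l n = some m → Φ l' n = some m

theorem Mono.pre {σ : Type*} {Φ : List Bool → ℕ → Option σ} (h : Mono Φ) {X : ℕ → Bool}
    {s t n : ℕ} {m : σ} (hst : s ≤ t) (h1 : Φ (pre X s) n = some m) : Φ (pre X t) n = some m :=
  h _ _ _ _ (pre_isPrefix X hst) h1

theorem Mono.unique {σ : Type*} {Φ : List Bool → ℕ → Option σ} (h : Mono Φ) {X : ℕ → Bool}
    {s t n : ℕ} {m m' : σ} (h1 : Φ (MP_af0b0b_lc.pre X s) n = some m)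
    (h2 : Φ (MP_af0b0b_lc.pre X t) n = some m') : m = m' := by
  have a := h.pre (le_max_left s t) h1
  have b := h.pre (le_max_right s t) h2
  rw [a] at b
  exact Option.some.inj b

theorem exists_bound {p : ℕ → ℕ → Prop} (hp : ∀ j s t, s ≤ t → p j s → p j t) (k : ℕ)
    (h : ∀ j < k, ∃ s, p j s) : ∃ s, ∀ j < k, p j s := by
  induction k with
  | zero => exact ⟨0, fun _ h => absurd h (Nat.not_lt_zero _)⟩
  | succ k ih =>
    obtain ⟨s, hs⟩ := ih fun j hj => h j (by omega)
    obtain ⟨t, ht⟩ := h k (by omega)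
    refine ⟨max s t, fun j hj => ?_⟩
    rcases Nat.lt_succ_iff_lt_or_eq.1 hj with h | rfl
    · exact hp _ _ _ (le_max_left _ _) (hs j h)
    · exact hp _ _ _ (le_max_right _ _) ht

def goodAt (Φ : List Bool → ℕ → Option ℕ) (l : List Bool) (a k : ℕ) : Bool :=
  beq' (Φ l (Nat.pair a k)) (some 0) && (List.range k).all fun j =>
    (Φ l (Nat.pair a j)).isSome && !beq' (Φ l (Nat.pair a j)) (some 0)

theorem goodAt_iff (Φ : List Bool → ℕ → Option ℕ) (l : List Bool) (a k : ℕ) :
    goodAt Φ l a k = true ↔ Φ l (Nat.pair a k) = some 0 ∧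
      ∀ j < k, ∃ v, v ≠ 0 ∧ Φ l (Nat.pair a j) = some v := by
  simp only [goodAt, Bool.and_eq_true, beq'_iff, List.all_eq_true, List.mem_range,
    Bool.not_eq_true', ← Bool.not_eq_true]
  refine and_congr_right fun _ => forall₂_congr fun j _ => ?_
  cases Φ l (Nat.pair a j) <;> simp

theorem goodAt_unique {Φ : List Bool → ℕ → Option ℕ} {l : List Bool} {a k k' : ℕ}
    (h : goodAt Φ l a k = true) (h' : goodAt Φ l a k' = true) : k = k' := by
  rw [goodAt_iff] at h h'
  rcases lt_trichotomy k k' with hk | hk | hk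
  · obtain ⟨v, hv, hv'⟩ := h'.2 k hk
    rw [h.1] at hv'
    exact absurd (Option.some.inj hv').symm hv
  · exact hk
  · obtain ⟨v, hv, hv'⟩ := h.2 k' hk
    rw [h'.1] at hv'
    exact absurd (Option.some.inj hv').symm hv

def search (Φ : List Bool → ℕ → Option ℕ) (l : List Bool) (a : ℕ) : Option ℕ :=
  Nat.rec (motive := fun _ => Option ℕ) none
    (fun k IH => cond (goodAt Φ l a k) (some k) IH) l.length

theorem search_iff (Φ : List Bool → ℕ → Option ℕ) (l : List Bool) (a k : ℕ) :
    search Φ l a = some k ↔ k < l.length ∧ goodAt Φ l a k = true := by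
  unfold search
  induction l.length with
  | zero => simp
  | succ n ih =>
    cases h : goodAt Φ l a n
    · simp only [h, cond_false]
      rw [ih]
      constructor
      · exact fun h' => ⟨by omega, h'.2⟩
      · rintro ⟨h1, h2⟩
        refine ⟨?_, h2⟩
        rcases Nat.lt_succ_iff_lt_or_eq.1 h1 with h3 | rfl
        · exact h3
        · rw [h] at h2; exact absurd h2 (by simp)
    · simp only [h, cond_true, Option.some.injEq]
      constructor
      · rintro rfl; exact ⟨by omega, h⟩
      · exact fun h' => goodAt_unique h h'.2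

theorem normal_form_nat {X : ℕ → Bool} {f : ℕ →. ℕ} (hf : Nat.RecursiveIn {orc X} f) :
    ∃ Φ : List Bool → ℕ → Option ℕ, ComputableIn ∅ (fun p : List Bool × ℕ => Φ p.1 p.2) ∧
      Mono Φ ∧ ∀ n m, m ∈ f n → ∃ s, Φ (pre X s) n = some m := by
  induction hf with
  | zero => exact ⟨fun _ _ => some 0, by fun_prop, fun _ _ _ _ _ h => h,
      fun n m hm => ⟨0, congrArg some (Part.mem_some_iff.1 hm).symm⟩⟩
  | succ => exact ⟨fun _ n => some (n + 1), by fun_prop, fun _ _ _ _ _ h => h,
      fun n m hm => ⟨0, by simpa [eq_comm] using hm⟩⟩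
  | left => exact ⟨fun _ n => some n.unpair.1, by fun_prop, fun _ _ _ _ _ h => h,
      fun n m hm => ⟨0, by simpa [eq_comm] using hm⟩⟩
  | right => exact ⟨fun _ n => some n.unpair.2, by fun_prop, fun _ _ _ _ _ h => h,
      fun n m hm => ⟨0, by simpa [eq_comm] using hm⟩⟩
  | oracle g hg =>
    obtain rfl : g = orc X := hg
    refine ⟨fun l n => (l[n]?).map fun b => cond b 1 0, by fun_prop, ?_, fun n m hm => ⟨n + 1, ?_⟩⟩
    · rintro l _ n m ⟨t, rfl⟩ h
      obtain ⟨b, hb, rfl⟩ := Option.map_eq_some_iff.1 h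
      have hn : n < l.length := (List.getElem?_eq_some_iff.1 hb).1
      simp only [List.getElem?_append_left hn, hb, Option.map_some]
    · simp only [orc, Part.mem_some_iff] at hm
      simp only [pre_getElem? X (Nat.lt_succ_self n), hm, Option.map_some]
  | pair _ _ ih1 ih2 =>
    obtain ⟨Φ, c1, m1, h1⟩ := ih1
    obtain ⟨Ψ, c2, m2, h2⟩ := ih2
    refine ⟨fun l n => (Φ l n).bind fun a => (Ψ l n).map fun b => Nat.pair a b, by fun_prop, ?_,
      fun n m hm => ?_⟩
    · intro l l' n m hl h
      obtain ⟨a, ha, h⟩ := Option.bind_eq_some_iff.1 h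
      obtain ⟨b, hb, rfl⟩ := Option.map_eq_some_iff.1 h
      simp [m1 _ _ _ _ hl ha, m2 _ _ _ _ hl hb]
    · simp only [Seq.seq, Part.map_eq_map, Part.mem_bind_iff,
        Part.mem_map_iff] at hm
      obtain ⟨_, ⟨a, ha, rfl⟩, b, hb, rfl⟩ := hm
      obtain ⟨s, hs⟩ := h1 _ _ ha
      obtain ⟨t, ht⟩ := h2 _ _ hb
      exact ⟨max s t, by simp [m1.pre (le_max_left s t) hs, m2.pre (le_max_right s t) ht]⟩
  | comp _ _ ih1 ih2 =>
    obtain ⟨Φ, c1, m1, h1⟩ := ih1
    obtain ⟨Ψ, c2, m2, h2⟩ := ih2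
    refine ⟨fun l n => (Ψ l n).bind fun a => Φ l a, by fun_prop, ?_, fun n m hm => ?_⟩
    · intro l l' n m hl h
      obtain ⟨a, ha, h⟩ := Option.bind_eq_some_iff.1 h
      simp [m1 _ _ _ _ hl h, m2 _ _ _ _ hl ha]
    · obtain ⟨a, ha, hm⟩ := Part.mem_bind_iff.1 hm
      obtain ⟨s, hs⟩ := h1 _ _ hm
      obtain ⟨t, ht⟩ := h2 _ _ ha
      exact ⟨max s t, by simp [m1.pre (le_max_left s t) hs, m2.pre (le_max_right s t) ht]⟩
  | prec _ _ ih1 ih2 =>
    obtain ⟨Φ, c1, m1, h1⟩ := ih1
    obtain ⟨Ψ, c2, m2, h2⟩ := ih2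
    refine ⟨fun l p => Nat.rec (motive := fun _ => Option ℕ) (Φ l p.unpair.1)
      (fun y IH => IH.bind fun i => Ψ l (Nat.pair p.unpair.1 (Nat.pair y i))) p.unpair.2,
      by fun_prop, ?_, fun p m hm => ?_⟩
    · intro l l' p m hl
      beta_reduce
      induction p.unpair.2 generalizing m with
      | zero => exact m1 _ _ _ _ hl
      | succ k ih =>
        intro h
        obtain ⟨a, ha, h⟩ := Option.bind_eq_some_iff.1 h
        exact Option.bind_eq_some_iff.2 ⟨a, ih a ha, m2 _ _ _ _ hl h⟩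
    · have hmono : ∀ k m s t, s ≤ t →
          Nat.rec (motive := fun _ => Option ℕ) (Φ (pre X s) p.unpair.1)
            (fun y IH => IH.bind fun i => Ψ (pre X s) (Nat.pair p.unpair.1 (Nat.pair y i))) k
            = some m →
          Nat.rec (motive := fun _ => Option ℕ) (Φ (pre X t) p.unpair.1)
            (fun y IH => IH.bind fun i => Ψ (pre X t) (Nat.pair p.unpair.1 (Nat.pair y i))) k
            = some m := by
        intro k
        induction k with
        | zero => exact fun m s t hst => m1.pre hst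
        | succ k ih =>
          intro m s t hst h
          obtain ⟨a, ha, h⟩ := Option.bind_eq_some_iff.1 h
          exact Option.bind_eq_some_iff.2 ⟨a, ih a s t hst ha, m2.pre hst h⟩
      simp only at hm
      beta_reduce
      generalize p.unpair.2 = k at hm
      induction k generalizing m with
      | zero => exact h1 _ _ hm
      | succ k ih =>
        simp only [Part.bind_eq_bind, Part.mem_bind_iff] at hm
        obtain ⟨a, ha, hm⟩ := hm
        obtain ⟨s, hs⟩ := ih a ha
        obtain ⟨t, ht⟩ := h2 _ _ hm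
        exact ⟨max s t, Option.bind_eq_some_iff.2
          ⟨a, hmono _ _ _ _ (le_max_left s t) hs, m2.pre (le_max_right s t) ht⟩⟩
  | @rfind f _ ih =>
    obtain ⟨Φ, c1, m1, h1⟩ := ih
    refine ⟨search Φ, by unfold search goodAt; fun_prop, ?_, fun a k hk => ?_⟩
    · intro l l' a k hl h
      rw [search_iff, goodAt_iff] at h ⊢
      refine ⟨h.1.trans_le hl.length_le, m1 _ _ _ _ hl h.2.1, fun j hj => ?_⟩
      obtain ⟨v, hv, hv'⟩ := h.2.2 j hj
      exact ⟨v, hv, m1 _ _ _ _ hl hv'⟩
    · obtain ⟨hk1, hk2⟩ := Nat.mem_rfind.1 hk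
      simp only [Part.map_eq_map, Part.mem_map_iff] at hk1 hk2
      obtain ⟨v, hv, hv0⟩ := hk1
      obtain rfl : v = 0 := by simpa using hv0
      obtain ⟨s, hs⟩ := h1 _ _ hv
      obtain ⟨t, ht⟩ := exists_bound
        (p := fun j s => ∃ v, v ≠ 0 ∧ Φ (pre X s) (Nat.pair a j) = some v)
        (fun j s t hst ⟨v, hv, hv'⟩ => ⟨v, hv, m1.pre hst hv'⟩) k (by
          intro j hj
          obtain ⟨v, hv, hv0⟩ := hk2 hj
          obtain ⟨s, hs⟩ := h1 _ _ hv
          exact ⟨s, v, by simpa using hv0, hs⟩)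
      refine ⟨max (k + 1) (max s t), ?_⟩
      rw [search_iff, goodAt_iff]
      refine ⟨by simp, m1.pre (by simp) hs, fun j hj => ?_⟩
      obtain ⟨v, hv, hv'⟩ := ht j hj
      exact ⟨v, hv, m1.pre (by simp) hv'⟩

/-- `C` is the limit of the functional `Φ` along `X`. -/
def Lim (Φ : List Bool → ℕ → Option Bool) (X C : ℕ → Bool) : Prop :=
  ∀ n, ∃ s, Φ (pre X s) n = some (C n)

/-- Computable monotone functionals. -/
def Fnl (Φ : List Bool → ℕ → Option Bool) : Prop :=
  ComputableIn ∅ (fun p : List Bool × ℕ => Φ p.1 p.2) ∧ Mono Φ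

theorem normal_form {X C : ℕ → Bool} (h : ComputableIn {orc X} C) : ∃ Φ, Fnl Φ ∧ Lim Φ X C := by
  obtain ⟨Φ, c1, m1, h1⟩ := normal_form_nat h
  refine ⟨fun l n => (Φ l n).map fun v => beq' v 1, ⟨by fun_prop, ?_⟩, fun n => ?_⟩
  · intro l l' n m hl h
    obtain ⟨v, hv, rfl⟩ := Option.map_eq_some_iff.1 h
    simp [m1 _ _ _ _ hl hv]
  · obtain ⟨s, hs⟩ := h1 n (encode (C n)) (by simp)
    refine ⟨s, ?_⟩
    simp only [hs, Option.map_some, Option.some.injEq]
    cases C n <;> rfl

theorem Lim.unique {Φ : List Bool → ℕ → Option Bool} (hΦ : Mono Φ) {X C C' : ℕ → Bool}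
    (h : Lim Φ X C) (h' : Lim Φ X C') : C = C' := by
  funext n
  obtain ⟨s, hs⟩ := h n
  obtain ⟨t, ht⟩ := h' n
  exact hΦ.unique hs ht

theorem countable_computable {α σ : Type*} [Primcodable α] [Primcodable σ] :
    {f : α → σ | ComputableIn ∅ f}.Countable := by
  have h : ∀ f : {f : α → σ | ComputableIn ∅ f}, ∃ c : Nat.Partrec.Code,
      c.eval = fun n => Part.bind (decode (α := α) n) fun a => (Part.some (f.1 a)).map encode :=
    fun f => Nat.Partrec.Code.exists_code.1 (recursiveIn_empty_iff.1 f.2)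
  choose c hc using h
  refine Function.Injective.countable (f := c) fun f g hfg => ?_
  have := (hc f).symm.trans ((congrArg _ hfg).trans (hc g))
  ext a
  have := congrFun this (encode a)
  simpa using this

theorem countable_fnl : {Φ | Fnl Φ}.Countable := by
  have := (countable_computable (α := List Bool × ℕ) (σ := Option Bool)).image
    (fun f l n => f (l, n))
  refine this.mono fun Φ h => ?_
  exact ⟨fun p => Φ p.1 p.2, h.1, rfl⟩

theorem ci_lift {α σ : Type*} [Primcodable α] [Primcodable σ] {f : α → σ}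
    (h : ComputableIn ∅ f) (O : Set (ℕ →. ℕ)) : ComputableIn O f :=
  RecursiveIn.mono (Set.empty_subset _) h

theorem ci_orc_iff {O : Set (ℕ →. ℕ)} {X : ℕ → Bool} :
    RecursiveIn O (orc X) ↔ ComputableIn O X := by
  constructor
  · intro h
    have h' : ComputableIn O fun n => cond (X n) 1 0 := h
    have : ComputableIn O fun n => beq' (cond (X n) 1 0) 1 := by fun_prop
    exact ci_of_eq this fun n => by cases X n <;> rfl
  · intro h
    change ComputableIn O fun n => cond (X n) 1 0
    fun_prop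

theorem ci_self (X : ℕ → Bool) : ComputableIn {orc X} X :=
  ci_orc_iff.1 (RecursiveIn.oracle _ rfl)

theorem ci_trans {α σ : Type*} [Primcodable α] [Primcodable σ] {f : α → σ} {X : ℕ → Bool}
    {O : Set (ℕ →. ℕ)} (h : ComputableIn {orc X} f) (hX : ComputableIn O X) : ComputableIn O f :=
  RecursiveIn.subst h fun g hg => by
    obtain rfl : g = orc X := hg
    exact ci_orc_iff.2 hX

@[fun_prop] theorem ci_pre {α : Type*} [Primcodable α] {O : Set (ℕ →. ℕ)} {X : ℕ → Bool}
    (hX : ComputableIn O X) {f : α → ℕ} (hf : ComputableIn O f) :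
    ComputableIn O fun a => pre X (f a) := by
  unfold pre; fun_prop

end Pool.Agent.MP_af0b0b_lc

end

-- part MP_af0b0b_lc.Cantor
section

/-! Fair-coin measure on Cantor space, clopen sets, concentration on blocks, densities. -/

namespace Pool.Agent.MP_af0b0b_lc

open MeasureTheory ProbabilityTheory Filter Topology
open scoped ENNReal

abbrev Om := ℕ → Bool

noncomputable def coin : Measure Bool := uniformOn Set.univ

instance : IsProbabilityMeasure coin := by unfold coin; infer_instance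

theorem coin_singleton (b : Bool) : coin {b} = 2⁻¹ := by
  rw [coin, uniformOn_univ]
  simp

noncomputable def mu : Measure Om := Measure.infinitePi fun _ => coin

instance : IsProbabilityMeasure mu := by unfold mu; infer_instance

/-- All binary strings of a given length. -/
def allStr (t : ℕ) : List (List Bool) :=
  Nat.rec (motive := fun _ => List (List Bool)) [[]]
    (fun _ L => L.map (fun l => false :: l) ++ L.map (fun l => true :: l)) t

theorem allStr_succ (t : ℕ) :
    allStr (t + 1) = (allStr t).map (fun l => false :: l) ++ (allStr t).map (fun l => true :: l) :=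
  rfl

theorem mem_allStr {t : ℕ} {l : List Bool} : l ∈ allStr t ↔ l.length = t := by
  induction t generalizing l with
  | zero => simp [allStr]
  | succ t ih =>
    rw [allStr_succ]
    cases l with
    | nil => simp
    | cons b l => cases b <;> simp [ih]

theorem nodup_allStr (t : ℕ) : (allStr t).Nodup := by
  induction t with
  | zero => simp [allStr]
  | succ t ih =>
    rw [allStr_succ, List.nodup_append]
    refine ⟨ih.map fun _ _ h => by simpa using h, ih.map fun _ _ h => by simpa using h, ?_⟩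
    simp only [List.mem_map]
    rintro _ ⟨a, -, rfl⟩ _ ⟨b, -, rfl⟩
    simp

@[fun_prop] theorem ci_allStr {α : Type*} [Primcodable α] {O : Set (ℕ →. ℕ)} {f : α → ℕ}
    (hf : ComputableIn O f) : ComputableIn O fun a => allStr (f a) := by
  unfold allStr; fun_prop

theorem pre_eq_ofFn (X : Om) (t : ℕ) : pre X t = List.ofFn fun i : Fin t => X i := by
  apply List.ext_getElem <;> simp [pre]

theorem isClopen_pre (t : ℕ) (p : List Bool → Prop) : IsClopen {X : Om | p (pre X t)} := by
  have : {X : Om | p (pre X t)} =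
      (fun (X : Om) (i : Fin t) => X i) ⁻¹' {v | p (List.ofFn v)} := by
    ext X; simp [pre_eq_ofFn]
  rw [this]
  exact (isClopen_discrete _).preimage (by fun_prop)

theorem isClopen_pre₂ (s t : ℕ) (p : List Bool → List Bool → Prop) :
    IsClopen {q : Om × Om | p (pre q.1 s) (pre q.2 t)} := by
  have : {q : Om × Om | p (pre q.1 s) (pre q.2 t)} =
      (fun q : Om × Om => (fun i : Fin s => q.1 i, fun i : Fin t => q.2 i)) ⁻¹'
        {v | p (List.ofFn v.1) (List.ofFn v.2)} := by
    ext X; simp [pre_eq_ofFn]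
  rw [this]
  exact (isClopen_discrete _).preimage (by fun_prop)

theorem measurableSet_pre (t : ℕ) (p : List Bool → Prop) :
    MeasurableSet {X : Om | p (pre X t)} := (isClopen_pre t p).isClosed.measurableSet

theorem measurableSet_pre₂ (s t : ℕ) (p : List Bool → List Bool → Prop) :
    MeasurableSet {q : Om × Om | p (pre q.1 s) (pre q.2 t)} :=
  (isClopen_pre₂ s t p).isClosed.measurableSet

theorem mu_cyl (l : List Bool) : mu {X | pre X l.length = l} = 2⁻¹ ^ l.length := by
  have : {X : Om | pre X l.length = l} =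
      Set.pi (Finset.range l.length) fun i => {(l[i]?).getD false} := by
    ext X
    simp only [Set.mem_ofPred_eq, Finset.coe_range, Set.mem_pi, Set.mem_Iio,
      Set.mem_singleton_iff]
    constructor
    · intro h i hi
      rw [← h, pre_getElem? X hi]; rfl
    · intro h
      apply List.ext_getElem
      · simp
      · intro i h1 h2
        simp [pre, h i h2, h2]
  rw [this, mu, Measure.infinitePi_pi _ (fun _ _ => measurableSet_singleton _)]
  simp [coin_singleton]

theorem mu_pre (t : ℕ) (p : List Bool → Bool) :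
    mu {X | p (pre X t) = true} = ((allStr t).countP p : ℕ) * 2⁻¹ ^ t := by
  have : {X : Om | p (pre X t) = true} =
      ⋃ l ∈ ((allStr t).filter p).toFinset, {X | pre X t = l} := by
    ext X
    simp [mem_allStr]
  rw [this, measure_biUnion_finset]
  · rw [Finset.sum_congr rfl (g := fun _ => 2⁻¹ ^ t)]
    · rw [Finset.sum_const, List.toFinset_card_of_nodup ((nodup_allStr t).filter _),
        List.countP_eq_length_filter, nsmul_eq_mul]
    · intro l hl
      simp only [List.mem_toFinset, List.mem_filter, mem_allStr] at hl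
      rw [← hl.1]
      exact mu_cyl l
  · intro l _ l' _ hne
    rw [Function.onFun, Set.disjoint_left]
    intro X h1 h2
    exact hne (h1.symm.trans h2)
  · exact fun l _ => measurableSet_pre t (· = l)

/-- Start of the `n`-th block. -/
def st (n : ℕ) : ℕ := n ^ 3

/-- Length of the `n`-th block. -/
def len (n : ℕ) : ℕ := 3 * n ^ 2 + 3 * n + 1

theorem st_succ (n : ℕ) : st (n + 1) = st n + len n := by simp only [st, len]; ring

/-- Number of places of block `n` where `β` is defined and differs from `Y`. -/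
def dis (β : ℕ → Option Bool) (Y : Om) (n : ℕ) : ℕ :=
  (List.range (len n)).countP fun j => beq' (β (st n + j)) (some (!Y (st n + j)))

def good (k : ℕ) (β : ℕ → Option Bool) (Y : Om) (n : ℕ) : Bool :=
  Nat.ble (2 * (k + 1) * dis β Y n) ((k + 3) * len n)

/-- A string as a sequence. -/
def ext (l : List Bool) : Om := fun i => (l[i]?).getD false

theorem ext_pre (Y : Om) {t i : ℕ} (h : i < t) : ext (pre Y t) i = Y i := by
  simp [ext, pre_getElem? Y h]

theorem dis_congr {β β' : ℕ → Option Bool} {Y Y' : Om} {n : ℕ}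
    (h : ∀ i < st (n + 1), β i = β' i) (h' : ∀ i < st (n + 1), Y i = Y' i) :
    dis β Y n = dis β' Y' n := by
  unfold dis
  refine List.countP_congr fun j hj => ?_
  have : st n + j < st (n + 1) := by rw [st_succ]; simpa using hj
  rw [h _ this, h' _ this]

theorem good_congr {k : ℕ} {β β' : ℕ → Option Bool} {Y Y' : Om} {n : ℕ}
    (h : ∀ i < st (n + 1), β i = β' i) (h' : ∀ i < st (n + 1), Y i = Y' i) :
    good k β Y n = good k β' Y' n := by
  unfold good; rw [dis_congr h h']

theorem good_ext {k : ℕ} (β : ℕ → Option Bool) (Y : Om) {n t : ℕ} (h : st (n + 1) ≤ t) :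
    good k β (ext (pre Y t)) n = good k β Y n :=
  good_congr (fun _ _ => rfl) fun _ hi => ext_pre Y (hi.trans_le h)

theorem good_mono {k : ℕ} {β β' : ℕ → Option Bool} {Y : Om} {n : ℕ}
    (h : ∀ i b, β i = some b → β' i = some b) (hg : good k β' Y n = true) :
    good k β Y n = true := by
  simp only [good, Nat.ble_eq] at hg ⊢
  refine le_trans (Nat.mul_le_mul_left _ ?_) hg
  unfold dis
  refine List.countP_mono_left fun j _ hj => ?_
  rw [beq'_iff] at hj ⊢
  exact h _ _ hj

@[fun_prop] theorem ci_good {α : Type*} [Primcodable α] {O : Set (ℕ →. ℕ)} (k : ℕ)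
    {β : α → ℕ → Option Bool} {Y : α → Om} {n : α → ℕ}
    (hβ : ComputableIn O fun p : α × ℕ => β p.1 p.2)
    (hY : ComputableIn O fun p : α × ℕ => Y p.1 p.2)
    (hn : ComputableIn O n) : ComputableIn O fun a => good k (β a) (Y a) (n a) := by
  unfold good dis st len; fun_prop

@[fun_prop] theorem ci_ext {α : Type*} [Primcodable α] {O : Set (ℕ →. ℕ)}
    {l : α → List Bool} {n : α → ℕ} (hl : ComputableIn O l) (hn : ComputableIn O n) :
    ComputableIn O fun a => ext (l a) (n a) := by
  unfold ext; fun_prop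

@[fun_prop] theorem ci_st {α : Type*} [Primcodable α] {O : Set (ℕ →. ℕ)}
    {n : α → ℕ} (hn : ComputableIn O n) : ComputableIn O fun a => st (n a) := by
  unfold st; fun_prop

/-- The error bound. -/
noncomputable def del (k n : ℕ) : ℝ≥0∞ := ((k + 1) ^ 2 : ℕ) / ((n + 1) ^ 2 : ℕ)

theorem del_eq (k n : ℕ) : del k n = ENNReal.ofReal (((k : ℝ) + 1) ^ 2 / ((n : ℝ) + 1) ^ 2) := by
  rw [del, ENNReal.ofReal_div_of_pos (by positivity), ← ENNReal.ofReal_natCast,
    ← ENNReal.ofReal_natCast]
  push_cast; rfl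

theorem tsum_del (k : ℕ) : ∑' n, del k n ≠ ∞ := by
  simp only [del_eq]
  have hs : Summable fun n : ℕ => ((k : ℝ) + 1) ^ 2 / ((n : ℝ) + 1) ^ 2 := by
    have h1 : Summable fun n : ℕ => 1 / ((n : ℝ)) ^ 2 := Real.summable_one_div_nat_pow.2 one_lt_two
    have h2 := ((summable_nat_add_iff 1).2 h1).mul_left (((k : ℝ) + 1) ^ 2)
    refine h2.congr fun n => ?_
    push_cast; ring
  rw [← ENNReal.ofReal_tsum_of_nonneg (fun n => by positivity) hs]
  exact ENNReal.ofReal_ne_top

theorem del_pos (k n : ℕ) : 0 < del k n := by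
  rw [del_eq]; exact ENNReal.ofReal_pos.2 (by positivity)

theorem countP_range_eq_sum (m : ℕ) (p : ℕ → Bool) :
    (((List.range m).countP p : ℕ) : ℝ) = ∑ j ∈ Finset.range m, if p j = true then 1 else 0 := by
  induction m with
  | zero => simp
  | succ m ih =>
    rw [List.range_succ, List.countP_append, Finset.sum_range_succ, ← ih]
    cases h : p m <;> simp [h]

theorem conc_total (k : ℕ) (C : Om) (n : ℕ) :
    mu {Y | good k (fun i => some (C i)) Y n = false} ≤ del k n := by
  let ξ : ℕ → Bool → ℝ := fun i b => if C i = !b then 1 else -1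
  have hind : iIndepFun (fun i (Y : Om) => ξ i (Y i)) mu :=
    iIndepFun_infinitePi (P := fun _ => coin) (X := ξ) fun i => measurable_of_finite _
  have hsub : ∀ i, HasSubgaussianMGF (fun Y : Om => ξ i (Y i)) 1 mu := by
    intro i
    have hm : Measurable fun Y : Om => ξ i (Y i) :=
      (measurable_of_finite (ξ i)).comp (measurable_pi_apply i)
    have := hasSubgaussianMGF_of_mem_Icc_of_integral_eq_zero (μ := mu) (a := -1) (b := 1)
      hm.aemeasurable (ae_of_all _ fun Y => by simp only [ξ]; split_ifs <;> norm_num) (by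
        have h1 := (measurePreserving_eval_infinitePi (fun _ : ℕ => coin) i).map_eq
        have h2 := integral_map (μ := mu) (φ := Function.eval i) (f := ξ i)
          (measurable_pi_apply i).aemeasurable (measurable_of_finite _).aestronglyMeasurable
        change ∫ Y, ξ i (Function.eval i Y) ∂mu = 0
        rw [← h2, mu, h1, integral_fintype .of_finite]
        simp only [Measure.real, coin_singleton, ξ]
        cases C i <;> simp)
    convert this using 1
    ext; norm_num
  set m := len n with hm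
  have hm0 : (0 : ℝ) < m := by simp only [hm, len]; positivity
  have hk0 : (0 : ℝ) < (k : ℝ) + 1 := by positivity
  have hind' : iIndepFun (fun j (Y : Om) => ξ (st n + j) (Y (st n + j))) mu :=
    hind.precomp (g := fun j => st n + j) (add_right_injective _)
  have h := HasSubgaussianMGF.measure_sum_ge_le_of_iIndepFun hind' (c := fun _ => 1)
    (s := Finset.range m) (fun i _ => hsub _) (ε := 2 * m / (k + 1)) (by positivity)
  have hsubset : {Y | good k (fun i => some (C i)) Y n = false} ⊆
      {Y : Om | 2 * (m : ℝ) / (k + 1) ≤ ∑ j ∈ Finset.range m, ξ (st n + j) (Y (st n + j))} := by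
    intro Y hY
    simp only [good, Set.mem_ofPred_eq, ← Bool.not_eq_true, Nat.ble_eq, not_le] at hY ⊢
    have h1 : ∑ j ∈ Finset.range m, ξ (st n + j) (Y (st n + j)) =
        2 * (dis (fun i => some (C i)) Y n : ℝ) - m := by
      rw [dis, countP_range_eq_sum, ← hm, Finset.mul_sum]
      have : (m : ℝ) = ∑ _j ∈ Finset.range m, (1 : ℝ) := by simp
      conv_rhs => rw [this]
      rw [← Finset.sum_sub_distrib]
      refine Finset.sum_congr rfl fun j _ => ?_
      simp only [ξ, beq'_iff, Option.some.injEq]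
      split_ifs <;> norm_num
    rw [h1, div_le_iff₀ hk0]
    have h2 : ((k : ℝ) + 3) * m < 2 * (k + 1) * dis (fun i => some (C i)) Y n := by
      exact_mod_cast hY
    nlinarith
  refine (measure_mono hsubset).trans ?_
  rw [del_eq, ← ofReal_measureReal]
  refine ENNReal.ofReal_le_ofReal (h.trans ?_)
  have h3 : -(2 * (m : ℝ) / (k + 1)) ^ 2 / (2 * ((∑ _i ∈ Finset.range m, (1 : NNReal) : NNReal) : ℝ))
      = -(2 * m / (k + 1) ^ 2) := by
    simp only [Finset.sum_const, Finset.card_range, nsmul_eq_mul, mul_one, NNReal.coe_natCast]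
    field_simp
  rw [h3, Real.exp_neg]
  have h4 : ((n : ℝ) + 1) ^ 2 ≤ 2 * m := by
    simp only [hm, len]; push_cast; nlinarith [sq_nonneg (n : ℝ), Nat.cast_nonneg (α := ℝ) n]
  calc (Real.exp (2 * (m : ℝ) / (k + 1) ^ 2))⁻¹ ≤ (2 * (m : ℝ) / (k + 1) ^ 2)⁻¹ := by
        refine inv_anti₀ (by positivity) ?_
        linarith [Real.add_one_le_exp (2 * (m : ℝ) / (k + 1) ^ 2)]
    _ = (k + 1) ^ 2 / (2 * m) := by field_simp
    _ ≤ _ := by gcongr

theorem conc (k : ℕ) (β : ℕ → Option Bool) (n : ℕ) :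
    mu {Y | good k β Y n = false} ≤ del k n := by
  refine le_trans (measure_mono fun Y hY => ?_) (conc_total k (fun i => (β i).getD false) n)
  simp only [Set.mem_ofPred_eq, ← Bool.not_eq_true] at hY ⊢
  exact fun h => hY (good_mono (fun i b hb => by simp [hb]) h)

/-- Upper density of the set of places where two sequences differ. -/
noncomputable def dd (A B : Om) : ℝ :=
  limsup (fun x : ℕ => (Nat.count (fun i => A i ≠ B i) x : ℝ) / x) atTop

theorem dd_comm (A B : Om) : dd A B = dd B A := by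
  simp only [dd, ne_comm]

theorem ratio_nonneg (p : ℕ → Prop) [DecidablePred p] (x : ℕ) : 0 ≤ (Nat.count p x : ℝ) / x := by
  positivity

theorem ratio_le_one (p : ℕ → Prop) [DecidablePred p] (x : ℕ) : (Nat.count p x : ℝ) / x ≤ 1 :=
  div_le_one_of_le₀ (by exact_mod_cast Nat.count_le p) (by positivity)

theorem ratio_bdd (p : ℕ → Prop) [DecidablePred p] :
    IsBoundedUnder (· ≤ ·) atTop fun x : ℕ => (Nat.count p x : ℝ) / x :=
  isBoundedUnder_of ⟨1, ratio_le_one p⟩

theorem ratio_cobdd (p : ℕ → Prop) [DecidablePred p] :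
    IsCoboundedUnder (· ≤ ·) atTop fun x : ℕ => (Nat.count p x : ℝ) / x :=
  (isBoundedUnder_of ⟨0, ratio_nonneg p⟩ :
    IsBoundedUnder (· ≥ ·) atTop fun x : ℕ => (Nat.count p x : ℝ) / x).isCoboundedUnder_le

theorem dis_eq_count (C Y : Om) (n : ℕ) :
    dis (fun i => some (C i)) Y n = Nat.count (fun j => C (st n + j) ≠ Y (st n + j)) (len n) := by
  unfold dis Nat.count
  refine List.countP_congr fun j _ => ?_
  simp only [beq'_iff, Option.some.injEq, decide_eq_true_eq]
  cases C (st n + j) <;> cases Y (st n + j) <;> simp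

theorem exists_block (x : ℕ) : ∃ n, st n ≤ x ∧ x < st (n + 1) := by
  induction x with
  | zero => exact ⟨0, by simp [st], by simp [st]⟩
  | succ x ih =>
    obtain ⟨n, h1, h2⟩ := ih
    by_cases h : x + 1 < st (n + 1)
    · exact ⟨n, by omega, h⟩
    · refine ⟨n + 1, by omega, ?_⟩
      rw [st_succ (n + 1)]
      simp only [len]; omega

theorem st_mono {m n : ℕ} (h : m ≤ n) : st m ≤ st n := Nat.pow_le_pow_left h 3

theorem dd_le_of_good {k N : ℕ} {C Y : Om}
    (h : ∀ n, N ≤ n → good k (fun i => some (C i)) Y n = true) :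
    dd C Y ≤ 1 / 2 + 1 / ((k : ℝ) + 1) := by
  have hk0 : (0 : ℝ) < (k : ℝ) + 1 := by positivity
  set r : ℝ := 1 / 2 + 1 / ((k : ℝ) + 1) with hr
  have hr0 : 0 ≤ r := by positivity
  have h1 : ∀ n, (Nat.count (fun i => C i ≠ Y i) (st n) : ℝ) ≤ st N + r * st n := by
    intro n
    induction n with
    | zero => simp [st]
    | succ n ih =>
      by_cases hn : N ≤ n
      · have h2 := h n hn
        simp only [good, Nat.ble_eq, dis_eq_count] at h2
        have h3 : 2 * ((k : ℝ) + 1) *
            Nat.count (fun j => C (st n + j) ≠ Y (st n + j)) (len n) ≤ (k + 3) * len n := by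
          exact_mod_cast h2
        have h4 : (Nat.count (fun j => C (st n + j) ≠ Y (st n + j)) (len n) : ℝ) ≤ r * len n := by
          have : r = (k + 3) / (2 * (k + 1)) := by rw [hr]; field_simp; ring
          rw [this, div_mul_eq_mul_div, le_div_iff₀ (by positivity)]
          linarith
        rw [st_succ, Nat.count_add]
        push_cast
        linarith
      · have h2 : Nat.count (fun i => C i ≠ Y i) (st (n + 1)) ≤ st N :=
          (Nat.count_le _).trans (st_mono (by omega))
        have h3 : (Nat.count (fun i => C i ≠ Y i) (st (n + 1)) : ℝ) ≤ st N := by exact_mod_cast h2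
        have : 0 ≤ r * st (n + 1) := by positivity
        linarith
  refine le_of_forall_pos_le_add fun ε hε => ?_
  refine limsup_le_of_le (ratio_cobdd _) ?_
  obtain ⟨M, hM⟩ := exists_nat_gt (max 1 ((st N + 7) / ε))
  have hM1 : (1 : ℝ) < M := (le_max_left _ _).trans_lt hM
  have hM2 : (st N + 7 : ℝ) < M * ε := by
    have := (le_max_right _ _).trans_lt hM
    rwa [div_lt_iff₀ hε] at this
  filter_upwards [eventually_ge_atTop (st M)] with x hx
  obtain ⟨n, hn1, hn2⟩ := exists_block x
  have hMn : M ≤ n := by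
    by_contra hc
    have := st_mono (show n + 1 ≤ M by omega)
    omega
  have hMn' : (M : ℝ) ≤ n := by exact_mod_cast hMn
  have hn0 : (1 : ℝ) ≤ n := by linarith
  have h2 : Nat.count (fun i => C i ≠ Y i) x ≤ Nat.count (fun i => C i ≠ Y i) (st n) + len n := by
    refine (Nat.count_monotone _ hn2.le).trans ?_
    rw [st_succ, Nat.count_add]
    exact Nat.add_le_add_left (Nat.count_le _) _
  have h3 : (Nat.count (fun i => C i ≠ Y i) x : ℝ) ≤
      Nat.count (fun i => C i ≠ Y i) (st n) + len n := by exact_mod_cast h2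
  have h4 : (st n : ℝ) ≤ x := by exact_mod_cast hn1
  have h5 : (st n : ℝ) = n ^ 3 := by simp [st]
  have h6 : (len n : ℝ) ≤ 7 * n ^ 2 := by simp only [len]; push_cast; nlinarith
  have hx0 : (0 : ℝ) < x := by rw [h5] at h4; exact lt_of_lt_of_le (by positivity) h4
  rw [div_le_iff₀ hx0]
  have h7 : (st N : ℝ) + 7 * n ^ 2 ≤ ε * x := by
    have a1 : (st N : ℝ) ≤ st N * n ^ 2 := le_mul_of_one_le_right (by positivity) (by nlinarith)
    have a2 : (st N + 7 : ℝ) * n ^ 2 ≤ n * ε * n ^ 2 := by
      refine mul_le_mul_of_nonneg_right ?_ (by positivity)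
      nlinarith
    have a3 : ε * n ^ 3 ≤ ε * x := by rw [← h5]; gcongr
    nlinarith
  have h8 : r * st n ≤ r * x := by gcongr
  have := h1 n
  nlinarith

end Pool.Agent.MP_af0b0b_lc

end

-- part MP_af0b0b_lc.Classes
section

/-! Effectively closed classes and the one-sided thinning steps. -/

namespace Pool.Agent.MP_af0b0b_lc

open MeasureTheory ProbabilityTheory Filter Topology
open scoped ENNReal

/-- Effectively closed classes relative to `O`. -/
def Pi1 (O : Set (ℕ →. ℕ)) (P : Set Om) : Prop :=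
  ∃ T : ℕ → List Bool → Bool, ComputableIn O (fun p : ℕ × List Bool => T p.1 p.2) ∧
    P = {X | ∀ n s, T n (pre X s) = true}

/-- Effectively closed classes of pairs. -/
def Pi2 (R : Set (Om × Om)) : Prop :=
  ∃ T : ℕ → List Bool → List Bool → Bool,
    ComputableIn ∅ (fun p : ℕ × List Bool × List Bool => T p.1 p.2.1 p.2.2) ∧
    R = {q | ∀ n s, T n (pre q.1 s) (pre q.2 s) = true}

theorem Pi1.univ (O : Set (ℕ →. ℕ)) : Pi1 O Set.univ :=
  ⟨fun _ _ => true, by fun_prop, by simp⟩

theorem Pi2.univ : Pi2 Set.univ := ⟨fun _ _ _ => true, by fun_prop, by simp⟩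

theorem Pi1.inter {O : Set (ℕ →. ℕ)} {P P' : Set Om} (h : Pi1 O P) (h' : Pi1 O P') :
    Pi1 O (P ∩ P') := by
  obtain ⟨T, hT, rfl⟩ := h
  obtain ⟨T', hT', rfl⟩ := h'
  refine ⟨fun n l => T n l && T' n l, by fun_prop, ?_⟩
  ext X; simp [forall_and]

theorem Pi2.inter {R R' : Set (Om × Om)} (h : Pi2 R) (h' : Pi2 R') : Pi2 (R ∩ R') := by
  obtain ⟨T, hT, rfl⟩ := h
  obtain ⟨T', hT', rfl⟩ := h'
  refine ⟨fun n l l' => T n l l' && T' n l l', by fun_prop, ?_⟩
  ext X; simp [forall_and]

theorem Pi2.swap {R : Set (Om × Om)} (h : Pi2 R) : Pi2 (Prod.swap ⁻¹' R) := by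
  obtain ⟨T, hT, rfl⟩ := h
  exact ⟨fun n l l' => T n l' l, by fun_prop, rfl⟩

theorem Pi1.isClosed {O : Set (ℕ →. ℕ)} {P : Set Om} (h : Pi1 O P) : IsClosed P := by
  obtain ⟨T, -, rfl⟩ := h
  simp only [Set.ofPred_forall]
  exact isClosed_iInter fun n => isClosed_iInter fun s =>
    (isClopen_pre s (fun l => T n l = true)).isClosed

theorem Pi2.isClosed {R : Set (Om × Om)} (h : Pi2 R) : IsClosed R := by
  obtain ⟨T, -, rfl⟩ := h
  simp only [Set.ofPred_forall]
  exact isClosed_iInter fun n => isClosed_iInter fun s =>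
    (isClopen_pre₂ s s (fun l l' => T n l l' = true)).isClosed

theorem Pi1.tree {O : Set (ℕ →. ℕ)} {P : Set Om} (h : Pi1 O P) :
    ∃ T : List Bool → Bool, ComputableIn O T ∧
      Antitone (fun s => {X : Om | T (pre X s) = true}) ∧
      P = ⋂ s, {X : Om | T (pre X s) = true} := by
  obtain ⟨T, hT, rfl⟩ := h
  have key : ∀ (X : Om) s, ((List.range ((pre X s).length + 1)).all fun n =>
      (List.range ((pre X s).length + 1)).all fun t => T n ((pre X s).take t)) = true ↔
      ∀ n ≤ s, ∀ t ≤ s, T n (pre X t) = true := by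
    intro X s
    simp only [pre_length, List.all_eq_true, List.mem_range, Nat.lt_succ_iff]
    exact forall₄_congr fun n _ t ht => by rw [pre_take X ht]
  refine ⟨fun l => (List.range (l.length + 1)).all fun n =>
    (List.range (l.length + 1)).all fun t => T n (l.take t), by fun_prop, ?_, ?_⟩
  · intro s t hst X hX
    simp only [Set.mem_ofPred_eq, key] at hX ⊢
    exact fun n hn u hu => hX n (hn.trans hst) u (hu.trans hst)
  · ext X
    simp only [Set.mem_ofPred_eq, Set.mem_iInter, key]
    exact ⟨fun h s n _ t _ => h n t,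
      fun h n s => h (max n s) n (le_max_left _ _) s (le_max_right _ _)⟩

theorem Pi2.tree {R : Set (Om × Om)} (h : Pi2 R) :
    ∃ T : List Bool → List Bool → Bool,
      ComputableIn ∅ (fun p : List Bool × List Bool => T p.1 p.2) ∧
      Antitone (fun s => {q : Om × Om | T (pre q.1 s) (pre q.2 s) = true}) ∧
      R = ⋂ s, {q : Om × Om | T (pre q.1 s) (pre q.2 s) = true} := by
  obtain ⟨T, hT, rfl⟩ := h
  have key : ∀ (q : Om × Om) s, ((List.range ((pre q.1 s).length + 1)).all fun n =>
      (List.range ((pre q.1 s).length + 1)).all fun t =>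
        T n ((pre q.1 s).take t) ((pre q.2 s).take t)) = true ↔
      ∀ n ≤ s, ∀ t ≤ s, T n (pre q.1 t) (pre q.2 t) = true := by
    intro X s
    simp only [pre_length, List.all_eq_true, List.mem_range, Nat.lt_succ_iff]
    exact forall₄_congr fun n _ t ht => by rw [pre_take X.1 ht, pre_take X.2 ht]
  refine ⟨fun l l' => (List.range (l.length + 1)).all fun n =>
    (List.range (l.length + 1)).all fun t => T n (l.take t) (l'.take t), by fun_prop, ?_, ?_⟩
  · intro s t hst X hX
    simp only [Set.mem_ofPred_eq, key] at hX ⊢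
    exact fun n hn u hu => hX n (hn.trans hst) u (hu.trans hst)
  · ext X
    simp only [Set.mem_ofPred_eq, Set.mem_iInter, key]
    exact ⟨fun h s n _ t _ => h n t,
      fun h n s => h (max n s) n (le_max_left _ _) s (le_max_right _ _)⟩

/-- Removing a tail of a summable family of bad sets keeps positive measure. -/
theorem thin {Ω : Type*} [MeasurableSpace Ω] (ν : Measure Ω) {S : Set Ω} (hS : 0 < ν S)
    (B : ℕ → Set Ω) (c : ℕ → ℝ≥0∞) (hc : ∑' n, c n ≠ ∞) (hB : ∀ n, ν (S ∩ B n) ≤ c n) :
    ∃ N, 0 < ν (S ∩ {x | ∀ n, N ≤ n → x ∉ B n}) := by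
  obtain ⟨N, hN⟩ := ((ENNReal.tendsto_sum_nat_add c hc).eventually (gt_mem_nhds hS)).exists
  refine ⟨N, pos_iff_ne_zero.2 fun h0 => hN.not_ge ?_⟩
  have : S ⊆ (S ∩ {x | ∀ n, N ≤ n → x ∉ B n}) ∪ ⋃ k, S ∩ B (k + N) := by
    intro x hx
    by_cases h : ∀ n, N ≤ n → x ∉ B n
    · exact Or.inl ⟨hx, h⟩
    · push Not at h
      obtain ⟨n, hn, hxn⟩ := h
      exact Or.inr (Set.mem_iUnion.2 ⟨n - N, hx, by rwa [Nat.sub_add_cancel hn]⟩)
  calc ν S ≤ _ := measure_mono this
    _ ≤ _ := measure_union_le _ _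
    _ ≤ 0 + ∑' k, ν (S ∩ B (k + N)) := by rw [h0]; gcongr; exact measure_iUnion_le _
    _ ≤ _ := by rw [zero_add]; exact ENNReal.tsum_le_tsum fun k => hB _

/-- Making the generic sequence random with respect to one given sequence. -/
theorem step_random {O : Set (ℕ →. ℕ)} {P : Set Om} (hP : Pi1 O P) (h0 : 0 < mu P) {A : ℕ → Bool}
    (hA : ComputableIn O A) (k : ℕ) :
    ∃ P' ⊆ P, Pi1 O P' ∧ 0 < mu P' ∧ ∀ X ∈ P', dd A X ≤ 1 / 2 + 1 / ((k : ℝ) + 1) := by
  obtain ⟨N, hN⟩ := thin mu h0 (fun n => {X | good k (fun i => some (A i)) X n = false}) (del k)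
    (tsum_del k) fun n => (measure_mono Set.inter_subset_right).trans (conc k _ n)
  refine ⟨_, Set.inter_subset_left, hP.inter ?_, hN, fun X hX => ?_⟩
  · refine ⟨fun n l => !Nat.ble N n || !Nat.ble (st (n + 1)) l.length ||
      good k (fun i => some (A i)) (ext l) n, by fun_prop, ?_⟩
    ext X
    simp only [Set.mem_ofPred_eq, pre_length, Bool.or_eq_true,
      Bool.not_eq_true', ← Bool.not_eq_true, Nat.ble_eq]
    constructor
    · intro h n s
      by_cases h1 : N ≤ n
      · by_cases h2 : st (n + 1) ≤ s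
        · right; rw [good_ext _ _ h2]; simpa using h n h1
        · exact Or.inl (Or.inr h2)
      · exact Or.inl (Or.inl h1)
    · intro h n hn
      have := h n (st (n + 1))
      rw [good_ext _ _ le_rfl] at this
      simpa [hn] using this
  · exact dd_le_of_good fun n hn => by simpa using hX.2 n hn

theorem le_del_iff (c s k n : ℕ) :
    (c : ℝ≥0∞) * 2⁻¹ ^ s ≤ 2 * del k n ↔ c * (n + 1) ^ 2 ≤ 2 * (k + 1) ^ 2 * 2 ^ s := by
  have h1 : (c : ℝ≥0∞) * 2⁻¹ ^ s = (c : ℝ≥0∞) / ((2 ^ s : ℕ) : ℝ≥0∞) := by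
    rw [div_eq_mul_inv, ← ENNReal.inv_pow]; norm_num
  rw [h1, del, ← mul_div_assoc, ENNReal.div_le_iff (by simp) (by simp), mul_comm,
    ← mul_div_assoc, ENNReal.le_div_iff_mul_le (by simp) (by simp)]
  rw [mul_comm (((2 ^ s : ℕ) : ℝ≥0∞))]
  exact_mod_cast Iff.rfl

theorem exists_alpha (k n s : ℕ) (Φ : List Bool → ℕ → Option Bool) :
    ∃ α : List Bool, mu {X | good k (Φ (pre X s)) (ext α) n = false} ≤ del k n := by
  let B : Set (Om × Om) :=
    {q | good k (Φ (pre q.1 s)) (ext (pre q.2 (st (n + 1)))) n = false}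
  have hB : MeasurableSet B :=
    measurableSet_pre₂ s (st (n + 1)) fun l l' => good k (Φ l) (ext l') n = false
  have h1 : mu.prod mu B ≤ del k n := by
    rw [Measure.prod_apply hB]
    calc _ ≤ ∫⁻ _, del k n ∂mu := by
          refine lintegral_mono fun X => ?_
          refine le_trans (measure_mono fun Y hY => ?_) (conc k (Φ (pre X s)) n)
          simpa [B, good_ext _ _ le_rfl] using hY
      _ = _ := by simp
  rw [Measure.prod_apply_symm hB] at h1
  obtain ⟨Y, hY⟩ := exists_le_lintegral (μ := mu)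
    (f := fun Y => mu ((fun X => (X, Y)) ⁻¹' B))
    (measurable_measure_prodMk_right hB).aemeasurable
  exact ⟨pre Y (st (n + 1)), hY.trans h1⟩

/-- The block index of a position. -/
theorem exists_blk (O : Set (ℕ →. ℕ)) :
    ∃ blk : ℕ → ℕ, ComputableIn O blk ∧ ∀ n x, st n ≤ x → x < st (n + 1) → blk x = n := by
  obtain ⟨blk, h1, h2⟩ := ci_choose (O := O)
    (p := fun x n : ℕ => Nat.ble (st n) x && Nat.ble (x + 1) (st (n + 1))) (by fun_prop)
    (fun x => by
      obtain ⟨n, h1, h2⟩ := exists_block x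
      exact ⟨n, by simp [h1, Nat.succ_le_of_lt h2]⟩)
  refine ⟨blk, h1, fun n x h3 h4 => ?_⟩
  have := h2 x
  simp only [Bool.and_eq_true, Nat.ble_eq] at this
  by_contra hne
  rcases lt_or_gt_of_ne hne with h | h
  · have := st_mono (show blk x + 1 ≤ n by omega); omega
  · have := st_mono (show n + 1 ≤ blk x by omega); omega

/-- Making everything computed from the generic sequence close to something computable in `O`. -/
theorem step_dominate {O : Set (ℕ →. ℕ)} {P : Set Om} (hP : Pi1 O P) (h0 : 0 < mu P)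
    {Φ : List Bool → ℕ → Option Bool} (hΦ : Fnl Φ) (k : ℕ) :
    ∃ P' ⊆ P, Pi1 O P' ∧ 0 < mu P' ∧ ∀ X ∈ P', ∀ C, Lim Φ X C →
      ∃ A, ComputableIn O A ∧ dd C A ≤ 1 / 2 + 1 / ((k : ℝ) + 1) := by
  have hΦc : ComputableIn O (fun p : List Bool × ℕ => Φ p.1 p.2) := ci_lift hΦ.1 O
  by_cases hdiv : ∃ i, 0 < mu (P ∩ {X | ∀ s, Φ (pre X s) i = none})
  · obtain ⟨i, hi⟩ := hdiv
    refine ⟨_, Set.inter_subset_left, hP.inter ⟨fun _ l => !(Φ l i).isSome, by fun_prop, ?_⟩, hi,
      fun X hX C hC => ?_⟩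
    · ext X; simp
    · obtain ⟨s, hs⟩ := hC i
      rw [hX.2 s] at hs
      exact absurd hs (by simp)
  push Not at hdiv
  obtain ⟨T, hT, hanti, hPT⟩ := hP.tree
  let cv : ℕ → List Bool → Bool := fun n l =>
    (List.range (st (n + 1))).all fun i => (Φ l i).isSome
  have hcv : ∀ n, ∃ s, mu {X | (T (pre X s) && !cv n (pre X s)) = true} ≤ del k n := by
    intro n
    have hanti' : Antitone fun s => {X : Om | (T (pre X s) && !cv n (pre X s)) = true} := by
      intro s t hst X hX
      simp only [cv, Set.mem_ofPred_eq, Bool.and_eq_true, Bool.not_eq_true', ← Bool.not_eq_true,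
        List.all_eq_true, List.mem_range] at hX ⊢
      refine ⟨hanti hst hX.1, fun h => hX.2 fun i hi => ?_⟩
      obtain ⟨b, hb⟩ := Option.isSome_iff_exists.1 (h i hi)
      rw [hΦ.2.pre hst hb]; rfl
    have hlim := tendsto_measure_iInter_atTop (μ := mu)
      (fun s => (measurableSet_pre s fun l => (T l && !cv n l) = true).nullMeasurableSet) hanti'
      ⟨0, measure_ne_top _ _⟩
    have hz : mu (⋂ s, {X : Om | (T (pre X s) && !cv n (pre X s)) = true}) = 0 := by
      refine measure_mono_null (t := ⋃ i, P ∩ {X | ∀ s, Φ (pre X s) i = none}) (fun X hX => ?_)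
        (measure_iUnion_null fun i => le_antisymm (hdiv i) zero_le)
      simp only [cv, Set.mem_iInter, Set.mem_ofPred_eq, Bool.and_eq_true, Bool.not_eq_true',
        ← Bool.not_eq_true, List.all_eq_true, List.mem_range] at hX
      have hXP : X ∈ P := by rw [hPT]; exact Set.mem_iInter.2 fun s => (hX s).1
      by_contra hne
      simp only [Set.mem_iUnion, Set.mem_inter_iff, hXP, true_and, Set.mem_ofPred_eq, not_exists,
        not_forall] at hne
      obtain ⟨s, hs⟩ := exists_bound (p := fun i s => (Φ (pre X s) i).isSome = true)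
        (fun j s t hst h => by
          obtain ⟨b, hb⟩ := Option.isSome_iff_exists.1 h
          rw [hΦ.2.pre hst hb]; rfl) (st (n + 1)) fun j _ => by
          obtain ⟨s, hs⟩ := hne j
          exact ⟨s, Option.isSome_iff_ne_none.2 hs⟩
      exact (hX s).2 hs
    rw [hz] at hlim
    exact (hlim.eventually (ge_mem_nhds (del_pos k n))).exists
  let test : ℕ → ℕ × List Bool → Bool := fun n w =>
    Nat.ble (((allStr w.1).countP fun l => T l && !(cv n l && good k (Φ l) (ext w.2) n))
      * (n + 1) ^ 2) (2 * (k + 1) ^ 2 * 2 ^ w.1)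
  have htest : ∀ n w, test n w = true ↔
      mu {X | (T (pre X w.1) && !(cv n (pre X w.1) && good k (Φ (pre X w.1)) (ext w.2) n)) = true}
        ≤ 2 * del k n := by
    intro n w
    rw [mu_pre w.1 fun l => T l && !(cv n l && good k (Φ l) (ext w.2) n), le_del_iff]
    simp only [test, Nat.ble_eq]
  obtain ⟨w, hw, hw'⟩ := ci_choose (O := O) (p := test) (by simp only [test, cv]; fun_prop) (by
    intro n
    obtain ⟨s, hs⟩ := hcv n
    obtain ⟨α, hα⟩ := exists_alpha k n s Φ
    refine ⟨(s, α), (htest n _).2 ?_⟩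
    rw [two_mul]
    refine le_trans (le_trans (measure_mono fun X hX => ?_) (measure_union_le _ _))
      (add_le_add hs hα)
    simp only [Set.mem_ofPred_eq, Set.mem_union] at hX ⊢
    revert hX
    cases T (pre X s) <;> cases cv n (pre X s) <;> cases good k (Φ (pre X s)) (ext α) n <;> simp)
  obtain ⟨N, hN⟩ := thin mu h0 (fun n => {X | (cv n (pre X (w n).1) &&
      good k (Φ (pre X (w n).1)) (ext (w n).2) n) = false}) (fun n => 2 * del k n)
    (by rw [ENNReal.tsum_mul_left]; exact ENNReal.mul_ne_top (by simp) (tsum_del k)) fun n => by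
      refine le_trans (measure_mono fun X hX => ?_) ((htest n _).1 (hw' n))
      have h1 : T (pre X (w n).1) = true := by
        have := hX.1
        rw [hPT] at this
        exact Set.mem_iInter.1 this _
      have h2 := hX.2
      simp only [Set.mem_ofPred_eq] at h2 ⊢
      rw [h1, h2]; rfl
  obtain ⟨blk, hblk, hblk'⟩ := exists_blk O
  refine ⟨_, Set.inter_subset_left, hP.inter ?_, hN, fun X hX C hC =>
    ⟨fun x => ext (w (blk x)).2 x, by fun_prop, dd_le_of_good (N := N) fun n hn => ?_⟩⟩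
  · refine ⟨fun n l => !Nat.ble N n || !beq' l.length (w n).1 ||
      (cv n l && good k (Φ l) (ext (w n).2) n), by simp only [cv]; fun_prop, ?_⟩
    ext X
    simp only [Set.mem_ofPred_eq, pre_length, Bool.or_eq_true,
      Bool.not_eq_true', ← Bool.not_eq_true, Nat.ble_eq, beq'_iff]
    constructor
    · intro h n s
      by_cases h1 : N ≤ n
      · by_cases h2 : s = (w n).1
        · right; rw [h2]; simpa using h n h1
        · exact Or.inl (Or.inr h2)
      · exact Or.inl (Or.inl h1)
    · intro h n hn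
      simpa [hn] using h n (w n).1
  · have h1 := hX.2 n hn
    simp only [cv, Set.mem_ofPred_eq, Bool.not_eq_false, Bool.and_eq_true, List.all_eq_true,
      List.mem_range] at h1
    have h2 : good k (Φ (pre X (w n).1)) (ext (w n).2) n =
        good k (fun i => some (C i)) (ext (w n).2) n := by
      refine good_congr (fun i hi => ?_) fun _ _ => rfl
      obtain ⟨b, hb⟩ := Option.isSome_iff_exists.1 (h1.1 i hi)
      obtain ⟨s, hs⟩ := hC i
      rw [hb, hΦ.2.unique hb hs]
    rw [← h1.2, h2]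
    unfold good dis
    congr 2
    refine List.countP_congr fun j hj => ?_
    beta_reduce
    rw [hblk' n (st n + j) (by omega) (by rw [st_succ]; simpa using hj)]

end Pool.Agent.MP_af0b0b_lc

end

-- part MP_af0b0b_lc.Forcing
section

/-! The forcing with triples `(P, Q, R)` and the generic pair. -/

namespace Pool.Agent.MP_af0b0b_lc

open MeasureTheory ProbabilityTheory Filter Topology
open scoped ENNReal

/-- Conditions. -/
def Cond (O O' : Set (ℕ →. ℕ)) (P Q : Set Om) (R : Set (Om × Om)) : Prop :=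
  Pi1 O P ∧ Pi1 O' Q ∧ Pi2 R ∧ 0 < mu.prod mu (P ×ˢ Q ∩ R)

theorem Cond.isClosed {O O' : Set (ℕ →. ℕ)} {P Q : Set Om} {R : Set (Om × Om)}
    (h : Cond O O' P Q R) : IsClosed (P ×ˢ Q ∩ R) :=
  (h.1.isClosed.prod h.2.1.isClosed).inter h.2.2.1.isClosed

theorem Cond.swap {O O' : Set (ℕ →. ℕ)} {P Q : Set Om} {R : Set (Om × Om)}
    (h : Cond O O' P Q R) : Cond O' O Q P (Prod.swap ⁻¹' R) := by
  refine ⟨h.2.1, h.1, h.2.2.1.swap, ?_⟩
  have : Q ×ˢ P ∩ Prod.swap ⁻¹' R = Prod.swap ⁻¹' (P ×ˢ Q ∩ R) := by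
    ext q; simp [and_comm]
  rw [this, Measure.measurePreserving_swap.measure_preimage
    h.isClosed.measurableSet.nullMeasurableSet]
  exact h.2.2.2

theorem inv_le_iff (c t j : ℕ) (hj : j ≠ 0) :
    2 * (j : ℝ≥0∞)⁻¹ ≤ (c : ℝ≥0∞) * 2⁻¹ ^ t ↔ 2 * 2 ^ t ≤ c * j := by
  have h1 : (c : ℝ≥0∞) * 2⁻¹ ^ t = (c : ℝ≥0∞) / ((2 ^ t : ℕ) : ℝ≥0∞) := by
    rw [div_eq_mul_inv, ← ENNReal.inv_pow]; norm_num
  rw [h1, ← div_eq_mul_inv, ENNReal.div_le_iff (by simpa using hj) (by simp), mul_comm,
    ← mul_div_assoc, ENNReal.le_div_iff_mul_le (by simp) (by simp), mul_comm (j : ℝ≥0∞)]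
  exact_mod_cast Iff.rfl

/-- The key step: a subclass of `P`, effective in `O` alone, all of whose positive parts are
compatible with the rest of the condition. -/
theorem step_core {O O' : Set (ℕ →. ℕ)} {P Q : Set Om} {R : Set (Om × Om)}
    (h : Cond O O' P Q R) :
    ∃ P₀ ⊆ P, Pi1 O P₀ ∧ 0 < mu P₀ ∧
      ∀ P' ⊆ P₀, MeasurableSet P' → 0 < mu P' → 0 < mu.prod mu (P' ×ˢ Q ∩ R) := by
  obtain ⟨hP, hQ, hR, hm⟩ := id h
  obtain ⟨TQ, -, hQa, hQe⟩ := hQ.tree
  obtain ⟨TR, hTR, hRa, hRe⟩ := hR.tree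
  have hTR' := ci_lift hTR O
  obtain ⟨j, hj⟩ := ENNReal.exists_inv_nat_lt (a := mu.prod mu (P ×ˢ Q ∩ R) / 2)
    (ENNReal.div_pos_iff.2 ⟨hm.ne', by simp⟩).ne'
  have hj0 : j ≠ 0 := by rintro rfl; simp at hj
  have hη : (0 : ℝ≥0∞) < (j : ℝ≥0∞)⁻¹ := ENNReal.inv_pos.2 (by simp)
  have hj2 : 2 * (j : ℝ≥0∞)⁻¹ < mu.prod mu (P ×ˢ Q ∩ R) := by
    rw [mul_comm]
    exact (ENNReal.lt_div_iff_mul_lt (by simp) (by simp)).1 hj
  have hQm : MeasurableSet Q := hQ.isClosed.measurableSet
  obtain ⟨s, hs⟩ : ∃ s, mu ({X : Om | TQ (pre X s) = true} \ Q) < (j : ℝ≥0∞)⁻¹ := by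
    have hlim := tendsto_measure_iInter_atTop (μ := mu)
      (s := fun s => {X : Om | TQ (pre X s) = true} \ Q)
      (fun s => ((measurableSet_pre s fun l => TQ l = true).diff hQm).nullMeasurableSet)
      (fun s t hst => Set.sdiff_subset_sdiff_left (hQa hst)) ⟨0, measure_ne_top _ _⟩
    have : ⋂ s, ({X : Om | TQ (pre X s) = true} \ Q) = ∅ := by
      rw [Set.eq_empty_iff_forall_notMem]
      intro X hX
      rw [Set.mem_iInter] at hX
      exact (hX 0).2 (hQe ▸ Set.mem_iInter.2 fun s => (hX s).1)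
    rw [this, measure_empty] at hlim
    exact (hlim.eventually (gt_mem_nhds hη)).exists
  let L := (allStr s).filter TQ
  let sec : Om → ℕ → Set Om := fun X t =>
    {Y | TQ (pre Y s) = true ∧ TR (pre X t) (pre Y t) = true}
  have hsec : ∀ X t, s ≤ t → mu (sec X t) = (((allStr t).countP fun l' =>
      (!(L.all fun l₀ => !beq' l₀ (l'.take s))) && TR (pre X t) l' : ℕ) : ℝ≥0∞) * 2⁻¹ ^ t := by
    intro X t ht
    rw [← mu_pre]
    congr 1
    ext Y
    simp [sec, L, pre_take Y ht, mem_allStr, ht]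
  have hsecm : ∀ X t, MeasurableSet (sec X t) := fun X t =>
    (measurableSet_pre s fun l => TQ l = true).inter
      (measurableSet_pre t fun l => TR (pre X t) l = true)
  have hseca : ∀ X, Antitone (sec X) := fun X t u htu Y hY =>
    ⟨hY.1, hRa htu (show (X, Y) ∈ _ from hY.2)⟩
  let E : Set Om := {X | ∀ t, s ≤ t → 2 * (j : ℝ≥0∞)⁻¹ ≤ mu (sec X t)}
  have hE : Pi1 O E := by
    refine ⟨fun _ l => !Nat.ble s l.length || Nat.ble (2 * 2 ^ l.length)
      (((allStr l.length).countP fun l' =>
        (!(L.all fun l₀ => !beq' l₀ (l'.take s))) && TR l l') * j), by fun_prop, ?_⟩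
    ext X
    simp only [E, Set.mem_ofPred_eq, pre_length, Bool.or_eq_true, Bool.not_eq_true',
      ← Bool.not_eq_true, Nat.ble_eq, forall_const]
    refine forall_congr' fun t => ?_
    by_cases ht : s ≤ t
    · rw [hsec X t ht, inv_le_iff _ _ _ hj0]; simp [ht]
    · simp [ht]
  refine ⟨P ∩ E, Set.inter_subset_left, hP.inter hE, pos_iff_ne_zero.2 fun h0 => hj2.not_ge ?_,
    fun P' hP' hP'm hP'0 => pos_iff_ne_zero.2 fun h0 => hP'0.ne' ?_⟩
  · rw [Measure.prod_apply h.isClosed.measurableSet]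
    calc _ ≤ ∫⁻ _, 2 * (j : ℝ≥0∞)⁻¹ ∂mu := by
          refine lintegral_mono_ae ?_
          filter_upwards [measure_eq_zero_iff_ae_notMem.1 h0] with X hX
          by_cases hXP : X ∈ P
          · have : X ∉ E := fun h => hX ⟨hXP, h⟩
            simp only [E, Set.mem_ofPred_eq, not_forall, not_le] at this
            obtain ⟨t, -, ht⟩ := this
            refine le_trans (measure_mono fun Y hY => ?_) ht.le
            have h1 : Y ∈ Q := hY.1.2
            have h2 : (X, Y) ∈ R := hY.2
            rw [hQe] at h1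
            rw [hRe] at h2
            exact ⟨Set.mem_iInter.1 h1 s, Set.mem_iInter.1 h2 t⟩
          · have : Prod.mk X ⁻¹' (P ×ˢ Q ∩ R) = ∅ := by
              ext Y; simp [hXP]
            simp [this]
      _ = _ := by simp
  · rw [Measure.measure_prod_null ((hP'm.prod hQm).inter hR.isClosed.measurableSet)] at h0
    refine measure_eq_zero_iff_ae_notMem.2 ?_
    filter_upwards [h0] with X hX hXP'
    have hXE : X ∈ E := (hP' hXP').2
    have h1 : 2 * (j : ℝ≥0∞)⁻¹ ≤ mu (⋂ t, sec X t) := by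
      have hlim := tendsto_measure_iInter_atTop (μ := mu) (s := sec X)
        (fun t => (hsecm X t).nullMeasurableSet) (hseca X) ⟨0, measure_ne_top _ _⟩
      exact ge_of_tendsto hlim ((eventually_ge_atTop s).mono fun t ht => hXE t ht)
    have h2 : ⋂ t, sec X t ⊆ Prod.mk X ⁻¹' (P' ×ˢ Q ∩ R) ∪
        ({X : Om | TQ (pre X s) = true} \ Q) := by
      intro Y hY
      rw [Set.mem_iInter] at hY
      by_cases hYQ : Y ∈ Q
      · refine Or.inl ⟨⟨hXP', hYQ⟩, ?_⟩
        rw [hRe]
        exact Set.mem_iInter.2 fun t => (hY t).2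
      · exact Or.inr ⟨(hY 0).1, hYQ⟩
    have h3 := (h1.trans (measure_mono h2)).trans (measure_union_le _ _)
    simp only [Pi.zero_apply] at hX
    rw [hX, zero_add, two_mul] at h3
    exact (hs.trans_le le_self_add).not_ge h3

/-- Making the second coordinate random with respect to what the first one computes. -/
theorem step_mutual {O O' : Set (ℕ →. ℕ)} {P Q : Set Om} {R : Set (Om × Om)}
    (h : Cond O O' P Q R) {Φ : List Bool → ℕ → Option Bool} (hΦ : Fnl Φ) (k : ℕ) :
    ∃ R' ⊆ R, Cond O O' P Q R' ∧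
      ∀ q ∈ R', ∀ C, Lim Φ q.1 C → dd C q.2 ≤ 1 / 2 + 1 / ((k : ℝ) + 1) := by
  classical
  have hΦc := hΦ.1
  let B : ℕ → Set (Om × Om) := fun n =>
    ⋃ s, {q | (!Nat.ble (st (n + 1)) s || good k (Φ (pre q.1 s)) (ext (pre q.2 s)) n) = false}
  have hBm : ∀ n, MeasurableSet (B n) := fun n => MeasurableSet.iUnion fun s =>
    measurableSet_pre₂ s s fun l l' =>
      (!Nat.ble (st (n + 1)) s || good k (Φ l) (ext l') n) = false
  have hB : ∀ n, mu.prod mu (B n) ≤ del k n := by
    intro n
    rw [Measure.prod_apply (hBm n)]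
    calc _ ≤ ∫⁻ _, del k n ∂mu := by
          refine lintegral_mono fun X => ?_
          let β : ℕ → Option Bool := fun i =>
            if h : ∃ b s, Φ (pre X s) i = some b then some h.choose else none
          refine le_trans (measure_mono fun Y hY => ?_) (conc k β n)
          simp only [B, Set.preimage_iUnion, Set.mem_iUnion, Set.mem_preimage, Set.mem_ofPred_eq,
            Bool.or_eq_false_iff, Bool.not_eq_false', Nat.ble_eq] at hY
          obtain ⟨s, hs, hY⟩ := hY
          rw [good_ext _ _ hs] at hY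
          simp only [Set.mem_ofPred_eq, ← Bool.not_eq_true] at hY ⊢
          refine fun hg => hY (good_mono (fun i b hb => ?_) hg)
          have hex : ∃ b s, Φ (pre X s) i = some b := ⟨b, s, hb⟩
          obtain ⟨t, ht⟩ := hex.choose_spec
          simp only [β, dif_pos hex]
          rw [hΦ.2.unique ht hb]
      _ = _ := by simp
  obtain ⟨N, hN⟩ := thin (mu.prod mu) h.2.2.2 B (del k) (tsum_del k)
    fun n => (measure_mono Set.inter_subset_right).trans (hB n)
  refine ⟨R ∩ {x | ∀ n, N ≤ n → x ∉ B n}, Set.inter_subset_left,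
    ⟨h.1, h.2.1, h.2.2.1.inter ?_, by rwa [← Set.inter_assoc]⟩, fun q hq C hC => ?_⟩
  · refine ⟨fun n l l' => !Nat.ble N n || (!Nat.ble (st (n + 1)) l.length ||
      good k (Φ l) (ext l') n), by fun_prop, ?_⟩
    ext q
    simp only [B, Set.mem_ofPred_eq, Set.mem_iUnion, not_exists, Bool.not_eq_false, pre_length]
    refine forall_congr' fun n => ?_
    by_cases hn : N ≤ n
    · have : Nat.ble N n = true := by simpa using hn
      simp only [hn, this, forall_const, Bool.not_true, Bool.false_or]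
    · have : Nat.ble N n = false := by simpa [← Bool.not_eq_true] using hn
      simp [hn, this]
  · refine dd_le_of_good (N := N) fun n hn => ?_
    have h1 := hq.2 n hn
    simp only [B, Set.mem_ofPred_eq, Set.mem_iUnion, not_exists, Bool.not_eq_false] at h1
    obtain ⟨s, hs⟩ := exists_bound (p := fun i s => Φ (pre q.1 s) i = some (C i))
      (fun j s t hst h => hΦ.2.pre hst h) (st (n + 1)) fun j _ => hC j
    have h2 := h1 (max s (st (n + 1)))
    have h3 : Nat.ble (st (n + 1)) (max s (st (n + 1))) = true := by simp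
    rw [h3, good_ext _ _ (le_max_right _ _)] at h2
    simp only [Bool.not_true, Bool.false_or] at h2
    rw [← h2]
    exact good_congr (fun i hi => (hΦ.2.pre (le_max_left _ _) (hs i hi)).symm) fun _ _ => rfl

theorem generic_point {X ι : Type*} [TopologicalSpace X] [CompactSpace X] [Countable ι]
    (𝒦 : Set (Set X)) (hne : 𝒦.Nonempty) (hcl : ∀ K ∈ 𝒦, IsClosed K ∧ K.Nonempty)
    (W : ι → Set X) (hW : ∀ i, ∀ K ∈ 𝒦, ∃ K' ∈ 𝒦, K' ⊆ K ∧ K' ⊆ W i) : ∃ x, ∀ i, x ∈ W i := by
  obtain ⟨K₀, hK₀⟩ := hne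
  cases isEmpty_or_nonempty ι with
  | inl h => obtain ⟨x, -⟩ := (hcl K₀ hK₀).2; exact ⟨x, fun i => isEmptyElim i⟩
  | inr h =>
    obtain ⟨e, he⟩ := exists_surjective_nat ι
    choose! f hf using hW
    let K : ℕ → Set X := fun n => Nat.rec K₀ (fun n K => f (e n) K) n
    have hK : ∀ n, K n ∈ 𝒦 := by
      intro n
      induction n with
      | zero => exact hK₀
      | succ n ih => exact (hf _ _ ih).1
    obtain ⟨x, hx⟩ := IsCompact.nonempty_iInter_of_sequence_nonempty_isCompact_isClosed K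
      (fun n => (hf _ _ (hK n)).2.1) (fun n => (hcl _ (hK n)).2) (hcl _ hK₀).1.isCompact
      (fun n => (hcl _ (hK n)).1)
    refine ⟨x, fun i => ?_⟩
    obtain ⟨n, rfl⟩ := he i
    exact (hf _ _ (hK n)).2.2 (Set.mem_iInter.1 hx (n + 1))

/-- What is asked of the pair `q` on the side of `a`, for one functional and one precision. -/
def Req (a : Om) (Φ : List Bool → ℕ → Option Bool) (k : ℕ) (q : Om × Om) : Prop :=
  (∀ A, ComputableIn {orc a} A → Lim Φ a A → dd A q.1 ≤ 1 / 2 + 1 / ((k : ℝ) + 1)) ∧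
  (∀ C, Lim Φ q.1 C → ∃ A, ComputableIn {orc a} A ∧ dd C A ≤ 1 / 2 + 1 / ((k : ℝ) + 1)) ∧
  (∀ C, Lim Φ q.1 C → dd C q.2 ≤ 1 / 2 + 1 / ((k : ℝ) + 1))

theorem step_req {a : Om} {O' : Set (ℕ →. ℕ)} {P Q : Set Om} {R : Set (Om × Om)}
    (h : Cond {orc a} O' P Q R) {Φ : List Bool → ℕ → Option Bool} (hΦ : Fnl Φ) (k : ℕ) :
    ∃ P' ⊆ P, ∃ R' ⊆ R, Cond {orc a} O' P' Q R' ∧ ∀ q ∈ P' ×ˢ Q ∩ R', Req a Φ k q := by
  obtain ⟨R', hR', hc, h3⟩ := step_mutual h hΦ k
  obtain ⟨P₀, hP₀, hc₀, hm₀, hcore⟩ := step_core hc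
  obtain ⟨P₁, hP₁, hc₁, hm₁, h2⟩ := step_dominate hc₀ hm₀ hΦ k
  obtain ⟨P₂, hP₂, hc₂, hm₂, h1⟩ : ∃ P₂ ⊆ P₁, Pi1 {orc a} P₂ ∧ 0 < mu P₂ ∧ ∀ X ∈ P₂,
      ∀ A, ComputableIn {orc a} A → Lim Φ a A → dd A X ≤ 1 / 2 + 1 / ((k : ℝ) + 1) := by
    by_cases hex : ∃ A, ComputableIn {orc a} A ∧ Lim Φ a A
    · obtain ⟨A, hA, hA'⟩ := hex
      obtain ⟨P₂, hP₂, hc₂, hm₂, h1⟩ := step_random hc₁ hm₁ hA k
      exact ⟨P₂, hP₂, hc₂, hm₂, fun X hX A' _ h' => Lim.unique hΦ.2 hA' h' ▸ h1 X hX⟩
    · exact ⟨P₁, le_rfl, hc₁, hm₁, fun X _ A hA hA' => absurd ⟨A, hA, hA'⟩ hex⟩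
  exact ⟨P₂, hP₂.trans (hP₁.trans hP₀), R', hR', ⟨hc₂, hc.2.1, hc.2.2.1,
    hcore P₂ (hP₂.trans hP₁) hc₂.isClosed.measurableSet hm₂⟩,
    fun q hq => ⟨h1 _ hq.1.1, h2 _ (hP₂ hq.1.1), h3 q hq.2⟩⟩

theorem exists_pair_req (a b : Om) : ∃ q : Om × Om,
    ∀ Φ, Fnl Φ → ∀ k, Req a Φ k q ∧ Req b Φ k q.swap := by
  have := countable_fnl.to_subtype
  obtain ⟨q, hq⟩ := generic_point (ι := {Φ | Fnl Φ} × ℕ)
    {K | ∃ P Q R, Cond {orc a} {orc b} P Q R ∧ K = P ×ˢ Q ∩ R}
    ⟨_, Set.univ, Set.univ, Set.univ, ⟨Pi1.univ _, Pi1.univ _, Pi2.univ, by simp⟩, rfl⟩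
    (by
      rintro _ ⟨P, Q, R, h, rfl⟩
      exact ⟨h.isClosed, nonempty_of_measure_ne_zero h.2.2.2.ne'⟩)
    (fun i => {q | Req a i.1.1 i.2 q ∧ Req b i.1.1 i.2 q.swap}) (by
      rintro ⟨⟨Φ, hΦ⟩, k⟩ _ ⟨P, Q, R, h, rfl⟩
      obtain ⟨P', hP', R', hR', h', h1⟩ := step_req h hΦ k
      obtain ⟨Q', hQ', R'', hR'', h'', h2⟩ := step_req h'.swap hΦ k
      have hsub : P' ×ˢ Q' ∩ Prod.swap ⁻¹' R'' ⊆ P' ×ˢ Q ∩ R' := fun q hq =>
        ⟨⟨hq.1.1, hQ' hq.1.2⟩, hR'' hq.2⟩
      exact ⟨_, ⟨P', Q', _, h''.swap, rfl⟩, fun q hq => ⟨⟨hP' hq.1.1, hQ' hq.1.2⟩, hR' (hsub hq).2⟩,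
        fun q hq => ⟨h1 q (hsub hq), h2 _ ⟨⟨hq.1.2, hq.1.1⟩, hq.2⟩⟩⟩)
  exact ⟨q, fun Φ hΦ k => hq (⟨Φ, hΦ⟩, k)⟩

theorem le_half_of_forall {x : ℝ} (h : ∀ k : ℕ, x ≤ 1 / 2 + 1 / ((k : ℝ) + 1)) : x ≤ 1 / 2 := by
  refine le_of_forall_pos_le_add fun ε hε => ?_
  obtain ⟨k, hk⟩ := exists_nat_one_div_lt hε
  linarith [h k]

/-- `c` is at distance at most one half from everything computed by `a`. -/
def Rand (a c : Om) : Prop := ∀ A, ComputableIn {orc a} A → dd A c ≤ 1 / 2

/-- Everything computed by `c` is nearly within one half of something computed by `a`. -/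
def Near (a c : Om) : Prop :=
  ∀ C, ComputableIn {orc c} C → ∀ ε > 0, ∃ A, ComputableIn {orc a} A ∧ dd C A ≤ 1 / 2 + ε

theorem exists_pair (a b : Om) :
    ∃ c d : Om, Rand a c ∧ Near a c ∧ Rand b d ∧ Near b d ∧ Rand c d ∧ Rand d c := by
  obtain ⟨q, hq⟩ := exists_pair_req a b
  have key : ∀ (a : Om) (q : Om × Om), (∀ Φ, Fnl Φ → ∀ k, Req a Φ k q) →
      Rand a q.1 ∧ Near a q.1 ∧ Rand q.1 q.2 := by
    intro a q hq
    refine ⟨fun A hA => ?_, fun C hC ε hε => ?_, fun C hC => ?_⟩
    · obtain ⟨Φ, hΦ, hl⟩ := normal_form hA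
      exact le_half_of_forall fun k => (hq Φ hΦ k).1 A hA hl
    · obtain ⟨Φ, hΦ, hl⟩ := normal_form hC
      obtain ⟨k, hk⟩ := exists_nat_one_div_lt hε
      obtain ⟨A, hA, h⟩ := (hq Φ hΦ k).2.1 C hl
      exact ⟨A, hA, by linarith⟩
    · obtain ⟨Φ, hΦ, hl⟩ := normal_form hC
      exact le_half_of_forall fun k => (hq Φ hΦ k).2.2 C hl
  obtain ⟨h1, h2, h3⟩ := key a q fun Φ hΦ k => (hq Φ hΦ k).1
  obtain ⟨h4, h5, h6⟩ := key b q.swap fun Φ hΦ k => (hq Φ hΦ k).2
  exact ⟨q.1, q.2, h1, h2, h4, h5, h3, h6⟩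

end Pool.Agent.MP_af0b0b_lc

end

-- part MP_af0b0b_lc.Lower
section

/-! A sequence such that whatever comes close to it computes a sequence far from all computable
sequences. -/

namespace Pool.Agent.MP_af0b0b_lc

open Filter Encodable Denumerable

theorem dd_ge_of_blocks {A B : Om}
    (h : ∀ j, ∃ m, j ≤ m ∧ ∀ x, 4 ^ m ≤ x → x < 4 ^ (m + 1) → A x ≠ B x) : 3 / 4 ≤ dd A B := by
  refine le_limsup_of_frequently_le ?_ (ratio_bdd _)
  rw [frequently_atTop]
  intro j
  obtain ⟨m, hm, h⟩ := h j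
  refine ⟨4 ^ (m + 1), ?_, ?_⟩
  · have : m + 1 < 4 ^ (m + 1) := Nat.lt_pow_self (by norm_num)
    omega
  · have h1 : 4 ^ (m + 1) = 4 ^ m + 3 * 4 ^ m := by ring
    have h2 : Nat.count (fun k => A (4 ^ m + k) ≠ B (4 ^ m + k)) (3 * 4 ^ m) = 3 * 4 ^ m :=
      Nat.count_iff_forall.2 fun k hk => h _ (by omega) (by omega)
    have h3 : 3 * 4 ^ m ≤ Nat.count (fun i => A i ≠ B i) (4 ^ (m + 1)) := by
      rw [h1, Nat.count_add, h2]; omega
    have h4 : (3 * 4 ^ m : ℝ) ≤ Nat.count (fun i => A i ≠ B i) (4 ^ (m + 1)) := by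
      exact_mod_cast h3
    rw [le_div_iff₀ (by positivity)]
    push_cast
    rw [pow_succ]
    linarith

theorem exists_lg : ∃ lg : ℕ → ℕ, ComputableIn ∅ lg ∧
    ∀ m x, 4 ^ m ≤ x → x < 4 ^ (m + 1) → lg x = m := by
  obtain ⟨lg, h1, h2⟩ := ci_choose (O := ∅)
    (p := fun x m : ℕ => beq' x 0 || (Nat.ble (4 ^ m) x && Nat.ble (x + 1) (4 ^ (m + 1))))
    (by fun_prop) (fun x => by
      by_cases hx : x = 0
      · exact ⟨0, by simp [hx]⟩
      · refine ⟨Nat.log 4 x, ?_⟩
        have a := Nat.pow_log_le_self 4 hx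
        have b := Nat.lt_pow_succ_log_self (b := 4) (by norm_num) x
        simp [a, Nat.succ_le_of_lt b])
  refine ⟨lg, h1, fun m x h3 h4 => ?_⟩
  have h5 := h2 x
  have hx : x ≠ 0 := by have : 0 < 4 ^ m := by positivity
                        omega
  simp only [Bool.or_eq_true, beq'_iff, hx, false_or, Bool.and_eq_true, Nat.ble_eq] at h5
  by_contra hne
  rcases lt_or_gt_of_ne hne with h | h
  · have : 4 ^ (lg x + 1) ≤ 4 ^ m := Nat.pow_le_pow_right (by norm_num) h
    omega
  · have : 4 ^ (m + 1) ≤ 4 ^ (lg x) := Nat.pow_le_pow_right (by norm_num) h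
    omega

/-- Step-bounded universal evaluation. -/
def ev (s e x : ℕ) : Option ℕ := Nat.Partrec.Code.evaln s (ofNat Nat.Partrec.Code e) x

@[fun_prop] theorem ci_ev {α : Type*} [Primcodable α] {O : Set (ℕ →. ℕ)} {s e x : α → ℕ}
    (hs : ComputableIn O s) (he : ComputableIn O e) (hx : ComputableIn O x) :
    ComputableIn O fun a => ev (s a) (e a) (x a) :=
  ci_prim Nat.Partrec.Code.primrec_evaln
    (ci_pair (ci_pair hs (ci_prim (Primrec.ofNat Nat.Partrec.Code) he)) hx)

def cvg (r t s : ℕ) : Bool :=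
  (List.range (4 ^ (Nat.pair r t + 1))).all fun x => (ev s r.unpair.1 x).isSome

def stt (r s : ℕ) : ℕ × ℕ :=
  Nat.rec (motive := fun _ => ℕ × ℕ) (0, 0)
    (fun s p => cond (cvg r p.2 (s + 1)) (p.1 + 1, s + 1) p) s

theorem stt_succ (r s : ℕ) : stt r (s + 1) =
    cond (cvg r (stt r s).2 (s + 1)) ((stt r s).1 + 1, s + 1) (stt r s) := rfl

@[fun_prop] theorem ci_cvg {α : Type*} [Primcodable α] {O : Set (ℕ →. ℕ)} {r t s : α → ℕ}
    (hr : ComputableIn O r) (ht : ComputableIn O t) (hs : ComputableIn O s) :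
    ComputableIn O fun a => cvg (r a) (t a) (s a) := by
  unfold cvg; fun_prop

@[fun_prop] theorem ci_stt {α : Type*} [Primcodable α] {O : Set (ℕ →. ℕ)} {r s : α → ℕ}
    (hr : ComputableIn O r) (hs : ComputableIn O s) :
    ComputableIn O fun a => stt (r a) (s a) := by
  unfold stt; fun_prop

theorem stt_const {r t u : ℕ} (h : (stt r t).2 = t) (htu : t ≤ u)
    (hc : ∀ s, t < s → s ≤ u → cvg r t s = false) : stt r u = stt r t := by
  induction u, htu using Nat.le_induction with
  | base => rfl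
  | succ u htu ih =>
    have := ih fun s h1 h2 => hc s h1 (by omega)
    rw [stt_succ, this, h, hc (u + 1) (by omega) le_rfl]; rfl

def Stuck (r t : ℕ) : Prop := (stt r t).2 = t ∧ ∀ s, cvg r t s = false

theorem Stuck.unique {r t t' : ℕ} (h : Stuck r t) (h' : Stuck r t') : t = t' := by
  rcases le_total t t' with hle | hle
  · have := stt_const h.1 hle fun s _ _ => h.2 s
    rw [← h.1, ← this, h'.1]
  · have := stt_const h'.1 hle fun s _ _ => h'.2 s
    rw [← h.1, this, h'.1]

theorem stt_reach {r : ℕ} (h : ∀ t, ∃ s, t < s ∧ cvg r t s = true) (k : ℕ) :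
    ∃ t, stt r t = (k, t) := by
  induction k with
  | zero => exact ⟨0, rfl⟩
  | succ k ih =>
    obtain ⟨t, ht⟩ := ih
    have hs := Nat.find_spec (h t)
    obtain ⟨u, hu⟩ : ∃ u, Nat.find (h t) = u + 1 := ⟨Nat.find (h t) - 1, by omega⟩
    have h1 : stt r u = stt r t := stt_const (by rw [ht]) (by omega) fun s h1 h2 => by
      have := Nat.find_min (h t) (show s < Nat.find (h t) by omega)
      simpa [h1] using this
    refine ⟨u + 1, ?_⟩
    rw [hu] at hs
    rw [stt_succ, h1, ht, hs.2]; rfl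

open Classical in
noncomputable def badVal (r : ℕ) : ℕ := if h : ∃ t, Stuck r t then (stt r h.choose).1 else 0

theorem cvg_of_ne {r t k : ℕ} (h : stt r t = (k, t)) (hk : k ≠ badVal r) :
    ∃ s, cvg r t s = true := by
  by_contra hc
  push Not at hc
  have hst : Stuck r t := ⟨by rw [h], fun s => by simpa using hc s⟩
  have hex : ∃ t, Stuck r t := ⟨t, hst⟩
  apply hk
  rw [badVal, dif_pos hex, hex.choose_spec.unique hst, h]

theorem exists_far : ∃ B : Om, ∀ (O : Set (ℕ →. ℕ)) (C : ℕ → Bool), ComputableIn O C →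
    dd B C < 3 / 4 → ∃ D, ComputableIn O D ∧ ∀ E, ComputableIn ∅ E → 3 / 4 ≤ dd D E := by
  obtain ⟨lg, hlg, hlg'⟩ := exists_lg
  refine ⟨fun x => ext ((decode (badVal (lg x)) : Option (List Bool)).getD []) x,
    fun O C hC hd => ?_⟩
  have hlgO := ci_lift hlg O
  let kk : ℕ → ℕ := fun r => encode ((List.range (4 ^ (r + 1))).map fun x => !C x)
  have hkk : ComputableIn O kk := by simp only [kk]; fun_prop
  obtain ⟨r₀, hr₀⟩ : ∃ r₀, ∀ r, r₀ ≤ r → kk r ≠ badVal r := by
    by_contra hc
    push Not at hc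
    refine hd.not_ge (dd_ge_of_blocks fun j => ?_)
    obtain ⟨r, hr, he⟩ := hc j
    refine ⟨r, hr, fun x h1 h2 => ?_⟩
    rw [hlg' r x h1 h2, ← he]
    simp [kk, ext, h2]
  let act : ℕ → Bool := fun m =>
    Nat.ble r₀ m.unpair.1 && beq' (stt m.unpair.1 m.unpair.2) (kk m.unpair.1, m.unpair.2)
  have hact : ComputableIn O act := by simp only [act]; fun_prop
  obtain ⟨S, hS, hS'⟩ := ci_choose (O := O)
    (p := fun m s : ℕ => !act m || cvg m.unpair.1 m.unpair.2 s) (by fun_prop) (fun m => by
      cases h : act m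
      · exact ⟨0, rfl⟩
      · simp only [act, Bool.and_eq_true, Nat.ble_eq, beq'_iff] at h
        simpa using cvg_of_ne h.2 (hr₀ _ h.1))
  refine ⟨fun x => act (lg x) && beq' (ev (S (lg x)) (lg x).unpair.1.unpair.1 x) (some 0),
    by fun_prop, fun E hE => dd_ge_of_blocks fun j => ?_⟩
  obtain ⟨c, hc⟩ := Nat.Partrec.Code.exists_code.1 (recursiveIn_empty_iff.1 hE)
  have hc' : ∀ x, encode (E x) ∈ c.eval x := by intro x; rw [hc]; simp
  set r := Nat.pair (encode c) (max j r₀) with hr
  have hev : ∀ s x, ev s r.unpair.1 x = c.evaln s x := by intro s x; simp [ev, hr]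
  have hrj : max j r₀ ≤ r := Nat.right_le_pair _ _
  obtain ⟨t, ht⟩ := stt_reach (r := r) (fun t => by
    obtain ⟨s, hs⟩ := exists_bound (p := fun x s => encode (E x) ∈ c.evaln s x)
      (fun x s t hst h => Nat.Partrec.Code.evaln_mono hst h) (4 ^ (Nat.pair r t + 1))
      fun x _ => Nat.Partrec.Code.evaln_complete.1 (hc' x)
    refine ⟨max s (t + 1), by omega, ?_⟩
    simp only [cvg, List.all_eq_true, List.mem_range, hev]
    intro x hx
    have := Nat.Partrec.Code.evaln_mono (le_max_left s (t + 1)) (hs x hx)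
    rw [Option.mem_def.1 this]; rfl) (kk r)
  refine ⟨Nat.pair r t, ((le_max_left _ _).trans hrj).trans (Nat.left_le_pair _ _),
    fun x h1 h2 => ?_⟩
  have ha : act (Nat.pair r t) = true := by
    simp only [act, Nat.unpair_pair, Bool.and_eq_true, Nat.ble_eq, beq'_iff]
    exact ⟨(le_max_right _ _).trans hrj, ht⟩
  have h3 := hS' (Nat.pair r t)
  simp only [ha, Bool.not_true, Bool.false_or, Nat.unpair_pair, cvg, List.all_eq_true,
    List.mem_range, hev] at h3
  obtain ⟨v, hv⟩ := Option.isSome_iff_exists.1 (h3 x h2)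
  have hv' : v = encode (E x) :=
    Part.mem_unique (Nat.Partrec.Code.evaln_sound (Option.mem_def.2 hv)) (hc' x)
  rw [hlg' _ x h1 h2, ha, Nat.unpair_pair, hev, hv, hv']
  cases E x <;> simp [beq']

end Pool.Agent.MP_af0b0b_lc

end

-- part MP_af0b0b_lc.Main
section

/-! The diameter is three. -/

namespace Pool.Agent.MP_af0b0b_lc

open Filter Topology Metric

def toSet (X : Om) : Set ℕ := {n | X n = true}

theorem toSet_surj (A : Set ℕ) : ∃ X, toSet X = A := by
  classical
  exact ⟨fun n => decide (n ∈ A), by ext n; simp [toSet]⟩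

theorem chi_toSet (X : Om) : chi (toSet X) = orc X := by
  funext n
  simp only [chi, orc, toSet, Set.mem_ofPred_eq]
  by_cases h : X n = true <;> simp [h]

theorem red_iff (X Y : Om) :
    TuringReducible (chi (toSet X)) (chi (toSet Y)) ↔ ComputableIn {orc Y} X := by
  rw [chi_toSet, chi_toSet]; exact ci_orc_iff

def dg (X : Om) : Deg := Quotient.mk turingSetoid (toSet X)

def cl (X : Om) : Coarse := Quotient.mk coarseSetoid (toSet X)

theorem dg_surj (d : Deg) : ∃ X, dg X = d := by
  obtain ⟨A, rfl⟩ := Quotient.exists_rep d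
  obtain ⟨X, rfl⟩ := toSet_surj A
  exact ⟨X, rfl⟩

theorem dist_cl (X Y : Om) : dist (cl X) (cl Y) = dd X Y := by
  change upperDensity (symmDiff (toSet X) (toSet Y)) = _
  unfold upperDensity dd
  congr 1
  funext n
  congr 2
  rw [Nat.count_eq_card_filter_range, ← Set.ncard_coe_finset]
  congr 1
  ext i
  simp only [toSet, Set.mem_inter_iff, Set.mem_symmDiff, Set.mem_ofPred_eq, Set.mem_Iio,
    Finset.coe_filter, Finset.mem_range]
  cases X i <;> cases Y i <;> simp

def cone (X : Om) : Set Coarse := {x | ∃ Y, ComputableIn {orc X} Y ∧ x = cl Y}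

theorem degClosure_dg (X : Om) : degClosure (dg X) = closure (cone X) := by
  unfold degClosure
  congr 1
  ext x
  constructor
  · rintro ⟨A, B, hB, hAB, rfl⟩
    obtain ⟨Y, rfl⟩ := toSet_surj A
    have : TuringEquivalent (chi B) (chi (toSet X)) := Quotient.exact hB
    exact ⟨Y, (red_iff _ _).1 (hAB.trans this.1), rfl⟩
  · rintro ⟨Y, hY, rfl⟩
    exact ⟨toSet Y, toSet X, rfl, (red_iff _ _).2 hY, rfl⟩

theorem H_dg (X Y : Om) : H (dg X) (dg Y) = hausdorffDist (cone X) (cone Y) := by
  rw [H, degClosure_dg, degClosure_dg, hausdorffDist_closure]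

theorem mem_cone {X Y : Om} (h : ComputableIn {orc X} Y) : cl Y ∈ cone X := ⟨Y, h, rfl⟩

theorem cone_nonempty (X : Om) : (cone X).Nonempty := ⟨_, X, ci_self X, rfl⟩

theorem bounded_coarse (s : Set Coarse) : Bornology.IsBounded s := by
  refine isBounded_iff.2 ⟨1, fun x _ y _ => ?_⟩
  induction x using Quotient.inductionOn
  induction y using Quotient.inductionOn
  exact slimsup_le_one _

theorem cone_fin (X Y : Om) : hausdorffEDist (cone X) (cone Y) ≠ ⊤ :=
  hausdorffEDist_ne_top_of_nonempty_of_bounded (cone_nonempty X) (cone_nonempty Y)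
    (bounded_coarse _) (bounded_coarse _)

theorem one_le_dd_not (A : Om) : 1 ≤ dd A (fun n => !A n) := by
  refine le_limsup_of_frequently_le ?_ (ratio_bdd _)
  refine ((eventually_ge_atTop 1).mono fun x hx => ?_).frequently
  rw [Nat.count_iff_forall.2 fun k _ => by cases h : A k <;> simp [h]]
  have : (x : ℝ) ≠ 0 := by exact_mod_cast (by omega : x ≠ 0)
  rw [div_self this]

theorem Rand.half_le {a c : Om} (h : Rand a c) {A : ℕ → Bool} (hA : ComputableIn {orc a} A) :
    1 / 2 ≤ dd A c := by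
  have h1 := h (fun n => !A n) (by fun_prop)
  have h2 := dist_triangle (cl A) (cl c) (cl fun n => !A n)
  rw [dist_cl, dist_cl, dist_cl, dd_comm c] at h2
  linarith [one_le_dd_not A]

theorem Rand.near {a c : Om} (h : Rand a c) : Near c a := fun A hA ε hε =>
  ⟨c, ci_self c, by linarith [h A hA]⟩

theorem infDist_le_of_near {a c : Om} (h : Near a c) :
    ∀ x ∈ cone c, infDist x (cone a) ≤ 1 / 2 := by
  rintro _ ⟨C, hC, rfl⟩
  refine le_of_forall_pos_le_add fun ε hε => ?_
  obtain ⟨A, hA, h⟩ := h C hC ε hε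
  refine (infDist_le_dist_of_mem (mem_cone hA)).trans ?_
  rwa [dist_cl]

theorem adj_of {a c : Om} (h1 : Rand a c) (h2 : Near a c) : halfGraph.Adj (dg a) (dg c) := by
  have hH : H (dg a) (dg c) = 1 / 2 := by
    rw [H_dg]
    refine le_antisymm (hausdorffDist_le_of_infDist (by norm_num) (infDist_le_of_near h1.near)
      (infDist_le_of_near h2)) ?_
    by_contra hlt
    obtain ⟨_, ⟨A, hA, rfl⟩, h⟩ := exists_dist_lt_of_hausdorffDist_lt'
      (mem_cone (ci_self c)) (not_le.1 hlt) (cone_fin a c)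
    rw [dist_cl] at h
    exact h.not_ge (h1.half_le hA)
  refine ⟨fun he => ?_, hH⟩
  rw [he, H, hausdorffDist_self_zero] at hH
  norm_num at hH

theorem edist_le_three (x y : Deg) : halfGraph.edist x y ≤ 3 := by
  obtain ⟨a, rfl⟩ := dg_surj x
  obtain ⟨b, rfl⟩ := dg_surj y
  obtain ⟨c, d, h1, h2, h3, h4, h5, h6⟩ := exists_pair a b
  have := SimpleGraph.edist_le (SimpleGraph.Walk.cons (adj_of h1 h2)
    (SimpleGraph.Walk.cons (adj_of h5 h6.near)
      (SimpleGraph.Walk.cons (adj_of h3 h4).symm SimpleGraph.Walk.nil)))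
  simpa using this

theorem close_of_H {a b : Om} (h : H (dg a) (dg b) ≤ 1 / 2) {A : ℕ → Bool}
    (hA : ComputableIn {orc a} A) : ∃ B, ComputableIn {orc b} B ∧ dd A B < 3 / 4 := by
  rw [H_dg] at h
  obtain ⟨_, ⟨B, hB, rfl⟩, h⟩ := exists_dist_lt_of_hausdorffDist_lt (r := 3 / 4)
    (mem_cone hA) (by linarith) (cone_fin a b)
  exact ⟨B, hB, by rwa [dist_cl] at h⟩

theorem exists_two_lt_edist : ∃ x y : Deg, 2 < halfGraph.edist x y := by
  obtain ⟨B, hB⟩ := exists_far
  have key : ∀ c : Om, H (dg B) (dg c) ≤ 1 / 2 → H (dg c) (dg fun _ => false) ≤ 1 / 2 → False := by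
    intro c h1 h2
    obtain ⟨C, hC, hBC⟩ := close_of_H h1 (ci_self B)
    obtain ⟨D, hD, hfar⟩ := hB _ C hC hBC
    obtain ⟨E, hE, hDE⟩ := close_of_H h2 hD
    exact hDE.not_ge (hfar E (ci_trans hE (ci_const false)))
  have hself : ∀ x, H x x ≤ 1 / 2 := fun x => by rw [H, hausdorffDist_self_zero]; norm_num
  refine ⟨dg B, dg fun _ => false, SimpleGraph.two_lt_edist_iff.2 ⟨fun h => ?_, fun h => ?_, ?_⟩⟩
  · exact key B (hself _) (h ▸ hself _)
  · exact key B (hself _) h.2.le
  · rw [Set.eq_empty_iff_forall_notMem]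
    intro z hz
    obtain ⟨c, rfl⟩ := dg_surj z
    have h1 : halfGraph.Adj (dg B) (dg c) := hz.1
    have h2 : halfGraph.Adj (dg fun _ => false) (dg c) := hz.2
    exact key c h1.2.le h2.symm.2.le

theorem ediam_eq_three : halfGraph.ediam = 3 := by
  refine le_antisymm (SimpleGraph.ediam_le_of_edist_le edist_le_three) ?_
  obtain ⟨x, y, h⟩ := exists_two_lt_edist
  exact (Order.add_one_le_of_lt h).trans SimpleGraph.edist_le_ediam

end Pool.Agent.MP_af0b0b_lc

end
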